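import Pool.Agent.Lib_MP_05ae4a_ep.Conv

/-! # Essential extreme points and strictly positive weights -/

namespace Pool.Agent.ProfOP

open Pool.Agent.ProfEP

/-- the essential extreme points -/
def Ess {m : ℕ} (P : Set (Fin m → ℝ)) : Set (Fin m → ℝ) :=
  {p | p ∈ (convexHull ℝ P).extremePoints ℝ ∧
    ∀ q ∈ (convexHull ℝ P).extremePoints ℝ, p ≤ q → q = p}

/-- the value of the weights -/
noncomputable def val {m : ℕ} (α p : Fin m → ℝ) : ℝ := ∑ i, α i * p i

theorem val_comb {m : ℕ} (α p q : Fin m → ℝ) (a b : ℝ) :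
    val α (a • p + b • q) = a * val α p + b * val α q := by
  unfold val
  rw [Finset.mul_sum, Finset.mul_sum, ← Finset.sum_add_distrib]
  refine Finset.sum_congr rfl (fun i _ => ?_)
  rw [Pi.add_apply, Pi.smul_apply, Pi.smul_apply, smul_eq_mul, smul_eq_mul]
  ring

theorem val_lt {m : ℕ} {α p q : Fin m → ℝ} (hα : ∀ i, 0 < α i) (hpq : p ≤ q) (hne : q ≠ p) :
    val α p < val α q := by
  obtain ⟨i, hi⟩ : ∃ i, p i < q i := by
    by_contra hcon
    push Not at hcon
    exact hne (le_antisymm (fun i => hcon i) hpq)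
  refine Finset.sum_lt_sum (fun j _ => mul_le_mul_of_nonneg_left (hpq j) (hα j).le)
    ⟨i, Finset.mem_univ i, mul_lt_mul_of_pos_left hi (hα i)⟩

theorem convex_unique {m : ℕ} (α p : Fin m → ℝ) :
    Convex ℝ {x : Fin m → ℝ | x = p ∨ val α x < val α p} := by
  intro x hx y hy a b ha hb hab
  simp only [Set.mem_ofPred_eq] at hx hy ⊢
  have hb' : b = 1 - a := by linarith
  rcases hx with rfl | hx
  · rcases hy with rfl | hy
    · left
      rw [← add_smul, hab, one_smul]
    · rcases eq_or_lt_of_le hb with h0 | h0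
      · left
        have ha1 : a = 1 := by linarith
        rw [← h0, ha1, one_smul, zero_smul, add_zero]
      · right
        rw [val_comb, hb']
        have := mul_lt_mul_of_pos_left hy h0
        rw [hb'] at this
        linarith
  · rcases hy with rfl | hy
    · rcases eq_or_lt_of_le ha with h0 | h0
      · left
        have hb1 : b = 1 := by linarith
        rw [← h0, hb1, one_smul, zero_smul, zero_add]
      · right
        rw [val_comb, hb']
        have := mul_lt_mul_of_pos_left hx h0
        linarith
    · right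
      rw [val_comb]
      have h1 := mul_le_mul_of_nonneg_left hx.le ha
      have h2 := mul_le_mul_of_nonneg_left hy.le hb
      rcases eq_or_lt_of_le ha with h0 | h0
      · have hb1 : b = 1 := by linarith
        rw [← h0, hb1, zero_mul, zero_add, one_mul]
        exact hy
      · have h3 := mul_lt_mul_of_pos_left hx h0
        have h4 : a * val α p + b * val α p = val α p := by rw [← add_mul, hab, one_mul]
        linarith

/-- unique maximizers of positive weights are essential -/
theorem ess_of_unique {m : ℕ} {P : Set (Fin m → ℝ)} {α : Fin m → ℝ} (hα : ∀ i, 0 < α i)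
    {p : Fin m → ℝ} (hp : p ∈ P) (h : ∀ q ∈ P, q ≠ p → val α q < val α p) : p ∈ Ess P := by
  have hK : convexHull ℝ P ⊆ {x : Fin m → ℝ | x = p ∨ val α x < val α p} := by
    refine convexHull_min ?_ (convex_unique α p)
    intro q hq
    by_cases hqp : q = p
    · exact Or.inl hqp
    · exact Or.inr (h q hq hqp)
  have hle : ∀ x ∈ convexHull ℝ P, val α x ≤ val α p := by
    intro x hx
    rcases hK hx with rfl | h1
    · exact le_rfl
    · exact h1.le
  refine ⟨?_, ?_⟩
  · rw [mem_extremePoints]
    refine ⟨subset_convexHull ℝ P hp, fun x hx y hy hseg => ?_⟩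
    obtain ⟨a, b, ha, hb, hab, habx⟩ := hseg
    have e1 : a * val α x + b * val α y = val α p := by rw [← val_comb, habx]
    have e2 : a * val α p + b * val α p = val α p := by rw [← add_mul, hab, one_mul]
    constructor
    · rcases hK hx with h1 | h1
      · exact h1
      · exfalso
        have g1 := mul_lt_mul_of_pos_left h1 ha
        have g2 := mul_le_mul_of_nonneg_left (hle y hy) hb.le
        linarith
    · rcases hK hy with h1 | h1
      · exact h1
      · exfalso
        have g1 := mul_lt_mul_of_pos_left h1 hb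
        have g2 := mul_le_mul_of_nonneg_left (hle x hx) ha.le
        linarith
  · intro q hq hpq
    by_contra hne
    have h1 := val_lt hα hpq hne
    have h2 := hle q (extremePoints_subset hq)
    linarith

theorem val_continuous {m : ℕ} (α : Fin m → ℝ) : Continuous (val α) := by
  unfold val
  exact continuous_finsetSum _ (fun i _ => continuous_const.mul (continuous_apply i))

/-- every positive weight has an essential maximizer -/
theorem exists_ess_max {m : ℕ} {P : Set (Fin m → ℝ)} (hfin : P.Finite) (hne : P.Nonempty)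
    {α : Fin m → ℝ} (hα : ∀ i, 0 < α i) : ∃ p ∈ Ess P, ∀ q ∈ P, val α q ≤ val α p := by
  have hK : IsCompact (convexHull ℝ P) := hfin.isCompact_convexHull (𝕜 := ℝ)
  obtain ⟨x, hx, hmax⟩ := hK.exists_isMaxOn hne.convexHull (val_continuous α).continuousOn
  obtain ⟨L, hL⟩ : ∃ L, L = {y | y ∈ convexHull ℝ P ∧ val α y = val α x} := ⟨_, rfl⟩
  have hLc : IsCompact L := by
    rw [hL]
    exact hK.inter_right (isClosed_eq (val_continuous α) continuous_const)
  have hLne : L.Nonempty := ⟨x, by rw [hL]; exact ⟨hx, rfl⟩⟩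
  obtain ⟨p, hp⟩ := hLc.extremePoints_nonempty hLne
  rw [mem_extremePoints] at hp
  have hpL := hp.1
  rw [hL] at hpL
  have hle : ∀ y ∈ convexHull ℝ P, val α y ≤ val α p := by
    intro y hy
    rw [hpL.2]
    exact hmax hy
  refine ⟨p, ⟨?_, ?_⟩, fun q hq => hle q (subset_convexHull ℝ P hq)⟩
  · rw [mem_extremePoints]
    refine ⟨hpL.1, fun y hy z hz hseg => ?_⟩
    obtain ⟨a, b, ha, hb, hab, habx⟩ := hseg
    have e1 : a * val α y + b * val α z = val α p := by rw [← val_comb, habx]
    have e2 : a * val α p + b * val α p = val α p := by rw [← add_mul, hab, one_mul]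
    have g1 := hle y hy
    have g2 := hle z hz
    have k1 : val α y = val α p := by
      refine le_antisymm g1 ?_
      by_contra hcon
      have g3 := mul_lt_mul_of_pos_left (not_le.1 hcon) ha
      have g4 := mul_le_mul_of_nonneg_left g2 hb.le
      linarith
    have k2 : val α z = val α p := by
      refine le_antisymm g2 ?_
      by_contra hcon
      have g3 := mul_lt_mul_of_pos_left (not_le.1 hcon) hb
      have g4 := mul_le_mul_of_nonneg_left g1 ha.le
      linarith
    refine hp.2 y ?_ z ?_ ⟨a, b, ha, hb, hab, habx⟩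
    · rw [hL]
      exact ⟨hy, k1.trans hpL.2⟩
    · rw [hL]
      exact ⟨hz, k2.trans hpL.2⟩
  · intro q hq hpq
    by_contra hne
    have h1 := val_lt hα hpq hne
    have h2 := hle q (extremePoints_subset hq)
    linarith

/-- an extreme point in a box -/
theorem ext_box {m : ℕ} {K : Set (Fin m → ℝ)} (hK : Convex ℝ K) {p y : Fin m → ℝ}
    (hp : p ∈ K.extremePoints ℝ) (hp0 : 0 ≤ p) (hpy : p ≤ y)
    (hzy : ∀ S : Finset (Fin m), zer S y ∈ K) : ∃ S : Finset (Fin m), p = zer S y := by
  have hbox : ∀ x : Fin m → ℝ, (∀ j, 0 ≤ x j) → (∀ j, x j ≤ y j) → x ∈ K := by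
    intro x hx0 hxy
    have e1 : x ∈ convexHull ℝ (Set.univ.pi (fun j => ({0, y j} : Set ℝ))) := by
      rw [convexHull_pi, Set.mem_univ_pi]
      intro j
      rw [convexHull_pair, segment_eq_Icc ((hx0 j).trans (hxy j))]
      exact ⟨hx0 j, hxy j⟩
    refine convexHull_min ?_ hK e1
    intro z hz
    rw [Set.mem_univ_pi] at hz
    have e2 : z = zer (Finset.univ.filter (fun j => z j ≠ 0)) y := by
      funext j
      unfold zer
      by_cases hzj : z j = 0
      · simp [hzj]
      · rw [if_pos (by simp [hzj])]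
        rcases hz j with h4 | h4
        · exact absurd h4 hzj
        · exact h4
    rw [e2]
    exact hzy _
  have hcoord : ∀ j, p j = 0 ∨ p j = y j := by
    intro j
    by_contra hcon
    rw [not_or] at hcon
    have g1 : 0 < p j := lt_of_le_of_ne (hp0 j) (Ne.symm hcon.1)
    have g2 : p j < y j := lt_of_le_of_ne (hpy j) hcon.2
    obtain ⟨e, he⟩ : ∃ e, e = min (p j) (y j - p j) := ⟨_, rfl⟩
    have he0 : 0 < e := by
      rw [he]
      exact lt_min g1 (by linarith)
    have he1 : e ≤ p j := he ▸ min_le_left _ _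
    have he2 : e ≤ y j - p j := he ▸ min_le_right _ _
    have hx1 : Function.update p j (p j + e) ∈ K := by
      refine hbox _ (fun i => ?_) (fun i => ?_)
      · by_cases hij : i = j
        · subst hij
          rw [Function.update_self]
          linarith
        · rw [Function.update_of_ne hij]
          exact hp0 i
      · by_cases hij : i = j
        · subst hij
          rw [Function.update_self]
          linarith
        · rw [Function.update_of_ne hij]
          exact hpy i
    have hx2 : Function.update p j (p j - e) ∈ K := by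
      refine hbox _ (fun i => ?_) (fun i => ?_)
      · by_cases hij : i = j
        · subst hij
          rw [Function.update_self]
          linarith
        · rw [Function.update_of_ne hij]
          exact hp0 i
      · by_cases hij : i = j
        · subst hij
          rw [Function.update_self]
          linarith
        · rw [Function.update_of_ne hij]
          exact hpy i
    have hseg : p ∈ openSegment ℝ (Function.update p j (p j + e))
        (Function.update p j (p j - e)) := by
      refine ⟨1 / 2, 1 / 2, by norm_num, by norm_num, by norm_num, ?_⟩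
      funext i
      rw [Pi.add_apply, Pi.smul_apply, Pi.smul_apply, smul_eq_mul, smul_eq_mul]
      by_cases hij : i = j
      · subst hij
        rw [Function.update_self, Function.update_self]
        ring
      · rw [Function.update_of_ne hij, Function.update_of_ne hij]
        ring
    have h4 := ((mem_extremePoints.1 hp).2 _ hx1 _ hx2 hseg).1
    have h5 := congrFun h4 j
    rw [Function.update_self] at h5
    linarith
  refine ⟨Finset.univ.filter (fun j => p j ≠ 0), ?_⟩
  funext j
  unfold zer
  by_cases hpj : p j = 0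
  · simp [hpj]
  · rw [if_pos (by simp [hpj])]
    exact (hcoord j).resolve_left hpj

theorem zer_lin {m : ℕ} (S : Finset (Fin m)) :
    IsLinearMap ℝ (fun x : Fin m → ℝ => zer S x) where
  map_add x y := by
    funext i
    rw [Pi.add_apply]
    unfold zer
    split_ifs
    · rw [Pi.add_apply]
    · rw [add_zero]
  map_smul c x := by
    funext i
    rw [Pi.smul_apply]
    unfold zer
    split_ifs
    · rw [Pi.smul_apply]
    · rw [smul_zero]

/-- essential extreme points are unique maximizers of positive weights -/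
theorem unique_of_ess {m : ℕ} {P : Set (Fin m → ℝ)} (hfin : P.Finite) (h0 : ∀ p ∈ P, 0 ≤ p)
    (hz : ∀ p ∈ P, ∀ S : Finset (Fin m), zer S p ∈ P) {p : Fin m → ℝ} (hp : p ∈ Ess P) :
    ∃ α : Fin m → ℝ, (∀ i, 0 < α i) ∧ ∀ q ∈ P, q ≠ p → val α q < val α p := by
  obtain ⟨hpe, hpm⟩ := hp
  have hKconv : Convex ℝ (convexHull ℝ P) := convex_convexHull ℝ P
  have hK : IsCompact (convexHull ℝ P) := hfin.isCompact_convexHull (𝕜 := ℝ)
  have hEP : (convexHull ℝ P).extremePoints ℝ ⊆ P := extremePoints_convexHull_subset
  have hEfin : ((convexHull ℝ P).extremePoints ℝ).Finite := hfin.subset hEP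
  have hKE : convexHull ℝ ((convexHull ℝ P).extremePoints ℝ) = convexHull ℝ P := by
    have h1 := closure_convexHull_extremePoints hK hKconv
    rwa [IsClosed.closure_eq (hEfin.isCompact_convexHull (𝕜 := ℝ)).isClosed] at h1
  obtain ⟨Q, hQ⟩ : ∃ Q, Q = {q | q ∈ (convexHull ℝ P).extremePoints ℝ ∧ q ≠ p} := ⟨_, rfl⟩
  have hQfin : Q.Finite := hEfin.subset (by rw [hQ]; exact fun q hq => hq.1)
  have hpP : p ∈ P := hEP hpe
  have hdisj : Disjoint (convexHull ℝ Q) (Set.Ici p) := by
    rw [Set.disjoint_left]
    intro y hy hpy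
    have hQP : Q ⊆ P := by
      rw [hQ]
      exact fun q hq => hEP hq.1
    have himg : ∀ S, zer S y ∈ convexHull ℝ ((fun x => zer S x) '' Q) := by
      intro S
      rw [← (zer_lin S).image_convexHull]
      exact ⟨y, hy, rfl⟩
    obtain ⟨S, hS⟩ := ext_box hKconv hpe (h0 p hpP) hpy (fun S => by
      refine convexHull_mono ?_ (himg S)
      rintro _ ⟨q, hq, rfl⟩
      exact hz q (hQP hq) S)
    have hTP : (fun x => zer S x) '' Q ⊆ P := by
      rintro _ ⟨q, hq, rfl⟩
      exact hz q (hQP hq) S
    have hpT : p ∈ convexHull ℝ ((fun x => zer S x) '' Q) := by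
      rw [hS]
      exact himg S
    have hpe' : p ∈ (convexHull ℝ ((fun x => zer S x) '' Q)).extremePoints ℝ :=
      inter_extremePoints_subset_extremePoints_of_subset (convexHull_mono hTP) ⟨hpT, hpe⟩
    obtain ⟨q, hq, hqp⟩ := extremePoints_convexHull_subset hpe'
    have hqP := hQP hq
    rw [hQ] at hq
    refine hq.2 (hpm q hq.1 ?_)
    intro j
    rw [← hqp]
    simp only
    unfold zer
    split_ifs
    · exact le_rfl
    · exact h0 q hqP j
  obtain ⟨f, u, v, hfu, huv, hfv⟩ := geometric_hahn_banach_compact_closed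
    (convex_convexHull ℝ Q) (hQfin.isCompact_convexHull (𝕜 := ℝ)) (convex_Ici p) isClosed_Ici hdisj
  obtain ⟨β, hβ⟩ : ∃ β : Fin m → ℝ, β = fun i => f (Pi.single i 1) := ⟨_, rfl⟩
  have hfval : ∀ x, f x = val β x := by
    intro x
    have h1 := LinearMap.pi_apply_eq_sum_univ (f : (Fin m → ℝ) →ₗ[ℝ] ℝ) x
    have h2 : f x = (f : (Fin m → ℝ) →ₗ[ℝ] ℝ) x := rfl
    rw [h2, h1, val, hβ]
    refine Finset.sum_congr rfl (fun i _ => ?_)
    rw [smul_eq_mul, mul_comm]
    congr 1
    simp only [ContinuousLinearMap.coe_coe]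
    congr 1
    funext j
    rw [Pi.single_apply]
    by_cases hij : i = j
    · simp [hij]
    · simp [hij, Ne.symm hij]
  have hβ0 : ∀ i, 0 ≤ β i := by
    intro i
    by_contra hcon
    rw [not_le] at hcon
    obtain ⟨c, hc⟩ : ∃ c : ℝ, c = (f p - v) / (-β i) := ⟨_, rfl⟩
    have hpv := hfv p (Set.mem_Ici.2 le_rfl)
    have hc0 : 0 ≤ c := by
      rw [hc]
      exact div_nonneg (by linarith) (by linarith)
    have h1 : p ≤ p + c • Pi.single i (1 : ℝ) := by
      intro j
      rw [Pi.add_apply, Pi.smul_apply, smul_eq_mul, Pi.single_apply]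
      split_ifs
      · linarith
      · linarith
    have h2 := hfv _ (Set.mem_Ici.2 h1)
    rw [map_add, map_smul, smul_eq_mul] at h2
    have h3 : f (Pi.single i 1) = β i := by rw [hβ]
    rw [h3] at h2
    have h4 : c * β i = -(f p - v) := by
      rw [hc]
      field_simp
      have : β i ≠ 0 := ne_of_lt hcon
      field_simp
    linarith
  -- perturbation
  obtain ⟨C, hC⟩ : ∃ C : ℝ, ∀ q ∈ P, ∑ i, (q i - p i) ≤ C := by
    obtain ⟨C, hC⟩ := (hfin.image (fun q => ∑ i, (q i - p i))).bddAbove
    exact ⟨C, fun q hq => hC ⟨q, hq, rfl⟩⟩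
  obtain ⟨δ, hδ⟩ : ∃ δ : ℝ, δ = (v - u) / (|C| + 1) := ⟨_, rfl⟩
  have hC1 : 0 < |C| + 1 := by
    have := abs_nonneg C
    linarith
  have hδ0 : 0 < δ := by
    rw [hδ]
    exact div_pos (by linarith) hC1
  refine ⟨fun i => β i + δ, fun i => add_pos_of_nonneg_of_pos (hβ0 i) hδ0, ?_⟩
  have hval : ∀ q, val (fun i => β i + δ) q = val β q + δ * ∑ i, q i := by
    intro q
    unfold val
    rw [Finset.mul_sum, ← Finset.sum_add_distrib]
    exact Finset.sum_congr rfl (fun i _ => by ring)
  have hQlt : ∀ q ∈ Q, val (fun i => β i + δ) q < val (fun i => β i + δ) p := by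
    intro q hq
    have h1 := hfu q (subset_convexHull ℝ Q hq)
    have h2 := hfv p (Set.mem_Ici.2 le_rfl)
    rw [hfval] at h1 h2
    have hqP : q ∈ P := by
      rw [hQ] at hq
      exact hEP hq.1
    have h3 := hC q hqP
    rw [Finset.sum_sub_distrib] at h3
    have h4 : δ * (∑ i, q i - ∑ i, p i) ≤ δ * |C| :=
      mul_le_mul_of_nonneg_left (h3.trans (le_abs_self C)) hδ0.le
    have h5 : δ * (|C| + 1) = v - u := by
      rw [hδ]
      field_simp
    rw [hval, hval]
    nlinarith
  intro q hq hqp
  have h1 : convexHull ℝ ((convexHull ℝ P).extremePoints ℝ) ⊆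
      {x : Fin m → ℝ | x = p ∨ val (fun i => β i + δ) x < val (fun i => β i + δ) p} := by
    refine convexHull_min ?_ (convex_unique _ p)
    intro x hx
    by_cases hxp : x = p
    · exact Or.inl hxp
    · exact Or.inr (hQlt x (by rw [hQ]; exact ⟨hx, hxp⟩))
  rw [hKE] at h1
  exact (h1 (subset_convexHull ℝ P hq)).resolve_left hqp

end Pool.Agent.ProfOP
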