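import Pool.Agent.Lib_MP_05ae4a_ep.Shift

/-! # t-intersecting families, left shifting, symmetric prefixes, optimal families -/

namespace Pool.Agent.ProfOP

open Pool.Agent.ProfEP

/-- t-intersecting -/
def TI {n : ℕ} (t : ℕ) (F : Finset (Finset (Fin n))) : Prop :=
  ∀ A ∈ F, ∀ B ∈ F, t ≤ (A ∩ B).card

/-- left shifted -/
def LS {n : ℕ} (F : Finset (Finset (Fin n))) : Prop :=
  ∀ A ∈ F, ∀ y ∈ A, ∀ x, x ∉ A → x < y → insert x (A.erase y) ∈ F

/-- the first `m` elements -/
def pre (n m : ℕ) : Finset (Fin n) := Finset.univ.filter (fun x => (x : ℕ) < m)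

/-- invariant under the permutations of the first `m` elements -/
def Sy {n : ℕ} (m : ℕ) (F : Finset (Finset (Fin n))) : Prop :=
  ∀ A ∈ F, ∀ y ∈ A, ∀ x, x ∉ A → (x : ℕ) < m → (y : ℕ) < m → insert x (A.erase y) ∈ F

/-- the weight of a family -/
noncomputable def wgt {n : ℕ} (α : ℕ → ℝ) (F : Finset (Finset (Fin n))) : ℝ := ∑ A ∈ F, α A.card

/-- optimal for the weights `α` -/
def Opt {n : ℕ} (α : ℕ → ℝ) (t : ℕ) (F : Finset (Finset (Fin n))) : Prop :=
  TI t F ∧ ∀ G : Finset (Finset (Fin n)), TI t G → wgt α G ≤ wgt α F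

/-- Frankl's family -/
def Fr (n t r : ℕ) : Finset (Finset (Fin n)) :=
  Finset.univ.filter (fun A => t + r ≤ (A ∩ pre n (t + 2 * r)).card)

theorem mem_pre {n m : ℕ} {x : Fin n} : x ∈ pre n m ↔ (x : ℕ) < m := by
  simp [pre]

theorem mem_Fr {n t r : ℕ} {A : Finset (Fin n)} :
    A ∈ Fr n t r ↔ t + r ≤ (A ∩ pre n (t + 2 * r)).card := by
  simp [Fr]

theorem pre_eq {n m : ℕ} : pre n m = (tail n (n - m))ᶜ := by
  ext x
  have := x.2
  rw [Finset.mem_compl, mem_tail, mem_pre]
  omega

theorem card_pre {n m : ℕ} (h : m ≤ n) : (pre n m).card = m := by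
  rw [pre_eq, card_compl_tail (by omega)]
  omega

theorem pre_subset {n m m' : ℕ} (h : m ≤ m') : pre n m ⊆ pre n m' := by
  intro x hx
  rw [mem_pre] at *
  omega

theorem card_le_n {n : ℕ} (A : Finset (Fin n)) : A.card ≤ n := by
  have := Finset.card_le_univ A
  rwa [Fintype.card_fin] at this

theorem pre_univ {n : ℕ} : pre n n = Finset.univ := by
  ext x
  simp [mem_pre]

/-- the swap argument -/
theorem swap_mem {n : ℕ} {F : Finset (Finset (Fin n))} (Q : Fin n → Fin n → Prop)
    (hF : ∀ A ∈ F, ∀ y ∈ A, ∀ x, x ∉ A → Q x y → insert x (A.erase y) ∈ F)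
    {A B : Finset (Fin n)} (hA : A ∈ F) (hc : A.card = B.card)
    (hQ : ∀ x ∈ B \ A, ∀ y ∈ A \ B, Q x y) : B ∈ F := by
  obtain ⟨c, hcc⟩ : ∃ c, (A \ B).card = c := ⟨_, rfl⟩
  induction c generalizing A with
  | zero =>
    rw [Finset.card_eq_zero, Finset.sdiff_eq_empty_iff_subset] at hcc
    have := Finset.eq_of_subset_of_card_le hcc (by omega)
    rwa [← this]
  | succ c ih =>
    have h1 := Finset.card_sdiff_add_card_inter A B
    have h2 := Finset.card_sdiff_add_card_inter B A
    rw [Finset.inter_comm] at h2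
    obtain ⟨y, hy⟩ : (A \ B).Nonempty := by
      rw [← Finset.card_pos]
      omega
    obtain ⟨x, hx⟩ : (B \ A).Nonempty := by
      rw [← Finset.card_pos]
      omega
    have hy' := Finset.mem_sdiff.1 hy
    have hx' := Finset.mem_sdiff.1 hx
    have hmem := hF A hA y hy'.1 x hx'.2 (hQ x hx y hy)
    have hxe : x ∉ A.erase y := fun hh => hx'.2 (Finset.mem_of_mem_erase hh)
    have hcard : (insert x (A.erase y)).card = A.card := by
      rw [Finset.card_insert_of_notMem hxe, Finset.card_erase_add_one hy'.1]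
    refine ih hmem (hcard.trans hc) ?_ ?_
    · intro a ha b hb
      rw [Finset.mem_sdiff, Finset.mem_insert, Finset.mem_erase, not_or, not_and_or] at ha
      rw [Finset.mem_sdiff, Finset.mem_insert, Finset.mem_erase] at hb
      have hbA : b ∈ A \ B := by
        rcases hb with ⟨rfl | ⟨_, hb1⟩, hb2⟩
        · exact absurd hx'.1 hb2
        · exact Finset.mem_sdiff.2 ⟨hb1, hb2⟩
      have haB : a ∈ B \ A := by
        rcases ha with ⟨ha1, ha2, ha3 | ha3⟩
        · rw [not_not] at ha3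
          exact absurd (ha3 ▸ ha1) hy'.2
        · exact Finset.mem_sdiff.2 ⟨ha1, ha3⟩
      exact hQ a haB b hbA
    · have h3 : insert x (A.erase y) \ B = (A \ B).erase y := by
        ext z
        simp only [Finset.mem_sdiff, Finset.mem_insert, Finset.mem_erase]
        constructor
        · rintro ⟨rfl | ⟨h4, h5⟩, h6⟩
          · exact absurd hx'.1 h6
          · exact ⟨h4, h5, h6⟩
        · rintro ⟨h4, h5, h6⟩
          exact ⟨Or.inr ⟨h4, h5⟩, h6⟩
      rw [h3, Finset.card_erase_of_mem hy, hcc]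
      rfl

theorem sym_mem {n m : ℕ} {F : Finset (Finset (Fin n))} (hF : Sy m F) {A B : Finset (Fin n)}
    (hA : A ∈ F) (hc : A.card = B.card) (h1 : A \ B ⊆ pre n m) (h2 : B \ A ⊆ pre n m) :
    B ∈ F := by
  refine swap_mem (fun x y => (x : ℕ) < m ∧ (y : ℕ) < m) ?_ hA hc ?_
  · intro A hA y hy x hx hxy
    exact hF A hA y hy x hx hxy.1 hxy.2
  · intro x hx y hy
    exact ⟨mem_pre.1 (h2 hx), mem_pre.1 (h1 hy)⟩

theorem pre_mem {n k : ℕ} {F : Finset (Finset (Fin n))} (hF : LS F) {A : Finset (Fin n)}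
    (hA : A ∈ F) (hk : A.card = k) : pre n k ∈ F := by
  have hkn : k ≤ n := hk ▸ card_le_n A
  refine swap_mem (fun x y => x < y) hF hA (by rw [hk, card_pre hkn]) ?_
  intro x hx y hy
  rw [Finset.mem_sdiff, mem_pre] at hx hy
  have h3 : (x : ℕ) < y := by omega
  exact h3

theorem exists_ls {n t : ℕ} (htn : t ≤ n) (F : Finset (Finset (Fin n))) (hF : TI t F) :
    ∃ H : Finset (Finset (Fin n)), LS H ∧ TI t H ∧ ∀ j, lev H j = lev F j := by
  have hcompl : ∀ (G : Finset (Finset (Fin n))) (j : ℕ), j ≤ n →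
      lev (G.image compl) j = lev G (n - j) := by
    intro G j hj
    unfold lev
    have h : (G.image compl).filter (fun A => A.card = j) =
        (G.filter (fun A => A.card = n - j)).image compl := by
      ext A
      simp only [Finset.mem_filter, Finset.mem_image]
      constructor
      · rintro ⟨⟨B, hB, rfl⟩, hc⟩
        refine ⟨B, ⟨hB, ?_⟩, rfl⟩
        rw [Finset.card_compl, Fintype.card_fin] at hc
        have := card_le_n B
        omega
      · rintro ⟨B, ⟨hB, hc⟩, rfl⟩
        refine ⟨⟨B, hB, rfl⟩, ?_⟩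
        rw [Finset.card_compl, Fintype.card_fin, hc]
        omega
    rw [h, Finset.card_image_of_injective _ compl_injective]
  have hbig : ∀ (G : Finset (Finset (Fin n))) (j : ℕ), n < j → lev G j = 0 := by
    intro G j hj
    rw [lev, Finset.card_eq_zero, Finset.filter_eq_empty_iff]
    intro A _ hA
    have := card_le_n A
    omega
  have hU : UBd (n - t) (F.image compl) := by
    intro A' hA' B' hB'
    obtain ⟨A, hA, rfl⟩ := Finset.mem_image.1 hA'
    obtain ⟨B, hB, rfl⟩ := Finset.mem_image.1 hB'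
    rw [← Finset.compl_inter, Finset.card_compl, Fintype.card_fin]
    have := hF A hA B hB
    omega
  obtain ⟨G, hG, hGU, hGl⟩ := exists_shifted (F.image compl) hU
  refine ⟨G.image compl, ?_, ?_, ?_⟩
  · intro A' hA' y hy x hx hxy
    obtain ⟨A, hA, rfl⟩ := Finset.mem_image.1 hA'
    rw [Finset.mem_compl] at hy hx
    rw [not_not] at hx
    have h1 := hG A hA x hx y hy hxy
    refine Finset.mem_image.2 ⟨_, h1, ?_⟩
    ext z
    simp only [Finset.mem_compl, Finset.mem_insert, Finset.mem_erase]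
    have hxy' : x ≠ y := ne_of_lt hxy
    by_cases hzx : z = x
    · subst hzx
      simp [hxy']
    · by_cases hzy : z = y
      · subst hzy
        simp [hzx]
      · simp [hzx, hzy]
  · intro A' hA' B' hB'
    obtain ⟨A, hA, rfl⟩ := Finset.mem_image.1 hA'
    obtain ⟨B, hB, rfl⟩ := Finset.mem_image.1 hB'
    have h1 := hGU A hA B hB
    have h2 : (Aᶜ ∩ Bᶜ).card = n - (A ∪ B).card := by
      rw [← Finset.compl_union, Finset.card_compl, Fintype.card_fin]
    omega
  · intro j
    rcases Nat.lt_or_ge n j with hj | hj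
    · rw [hbig _ _ hj, hbig _ _ hj]
    · rw [hcompl _ _ hj, hGl, hcompl _ _ (by omega)]
      congr 1
      omega

theorem wgt_eq {n : ℕ} (α : ℕ → ℝ) (F : Finset (Finset (Fin n))) :
    wgt α F = ∑ k ∈ Finset.range (n + 1), (lev F k : ℝ) * α k := by
  unfold wgt lev
  rw [← Finset.sum_fiberwise_of_maps_to (s := F) (t := Finset.range (n + 1))
    (g := fun A => A.card) (fun A _ => Finset.mem_range.2 (by have := card_le_n A; omega))]
  refine Finset.sum_congr rfl (fun k _ => ?_)
  rw [Finset.sum_congr rfl (g := fun _ => α k) (fun A hA => by rw [(Finset.mem_filter.1 hA).2]),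
    Finset.sum_const, nsmul_eq_mul]

theorem wgt_congr {n : ℕ} {α : ℕ → ℝ} {F G : Finset (Finset (Fin n))}
    (h : ∀ j, lev F j = lev G j) : wgt α F = wgt α G := by
  rw [wgt_eq, wgt_eq]
  exact Finset.sum_congr rfl (fun k _ => by rw [h])

/-! ### optimal families -/

section Opt

variable {n t : ℕ} {α : ℕ → ℝ} {F : Finset (Finset (Fin n))}

theorem opt_exists (n t : ℕ) (α : ℕ → ℝ) : ∃ F : Finset (Finset (Fin n)), Opt α t F := by
  classical
  obtain ⟨F, hF, hmax⟩ := Finset.exists_max_image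
    (Finset.univ.filter (fun F : Finset (Finset (Fin n)) => TI t F)) (wgt α)
    ⟨∅, Finset.mem_filter.2 ⟨Finset.mem_univ _, fun A hA => absurd hA (Finset.notMem_empty A)⟩⟩
  rw [Finset.mem_filter] at hF
  exact ⟨F, hF.2, fun G hG => hmax G (Finset.mem_filter.2 ⟨Finset.mem_univ _, hG⟩)⟩

theorem opt_ls (htn : t ≤ n) (hF : Opt α t F) :
    ∃ H : Finset (Finset (Fin n)), Opt α t H ∧ LS H ∧ ∀ j, lev H j = lev F j := by
  obtain ⟨H, h1, h2, h3⟩ := exists_ls htn F hF.1
  refine ⟨H, ⟨h2, fun G hG => ?_⟩, h1, h3⟩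
  rw [wgt_congr h3]
  exact hF.2 G hG

theorem opt_not_ssubset (hα : ∀ k, 0 < α k) (hF : Opt α t F) {G : Finset (Finset (Fin n))}
    (hG : TI t G) (hFG : F ⊆ G) : F = G := by
  by_contra hne
  have h1 := hF.2 G hG
  have h2 : wgt α F < wgt α G := by
    unfold wgt
    obtain ⟨A, hA, hAF⟩ := Finset.exists_of_ssubset (Finset.ssubset_iff_subset_ne.2 ⟨hFG, hne⟩)
    exact Finset.sum_lt_sum_of_subset hFG hA hAF (hα _) (fun B _ _ => (hα _).le)
  linarith

theorem opt_add (hα : ∀ k, 0 < α k) (hF : Opt α t F) {A : Finset (Fin n)} (hA : t ≤ A.card)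
    (h : ∀ B ∈ F, t ≤ (A ∩ B).card) : A ∈ F := by
  have h1 : TI t (insert A F) := by
    intro B hB C hC
    rcases Finset.mem_insert.1 hB with hB' | hB' <;> rcases Finset.mem_insert.1 hC with hC' | hC'
    · rw [hB', hC', Finset.inter_self]
      exact hA
    · rw [hB']
      exact h C hC'
    · rw [hC', Finset.inter_comm]
      exact h B hB'
    · exact hF.1 B hB' C hC'
  rw [opt_not_ssubset hα hF h1 (Finset.subset_insert A F)]
  exact Finset.mem_insert_self A F

theorem opt_up (hα : ∀ k, 0 < α k) (hF : Opt α t F) {A B : Finset (Fin n)} (hA : A ∈ F)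
    (hAB : A ⊆ B) : B ∈ F := by
  refine opt_add hα hF ?_ (fun C hC => ?_)
  · have := hF.1 A hA A hA
    rw [Finset.inter_self] at this
    exact this.trans (Finset.card_le_card hAB)
  · exact (hF.1 A hA C hC).trans (Finset.card_le_card (Finset.inter_subset_inter_right hAB))

theorem ti_Fr (n t r : ℕ) (h : t + 2 * r ≤ n) : TI t (Fr n t r) := by
  intro A hA B hB
  rw [mem_Fr] at hA hB
  have h1 := Finset.card_union_add_card_inter (A ∩ pre n (t + 2 * r)) (B ∩ pre n (t + 2 * r))
  have h2 : ((A ∩ pre n (t + 2 * r)) ∪ (B ∩ pre n (t + 2 * r))).card ≤ t + 2 * r := by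
    refine le_trans (Finset.card_le_card (Finset.union_subset Finset.inter_subset_right
      Finset.inter_subset_right)) (card_pre h).le
  have h3 : ((A ∩ pre n (t + 2 * r)) ∩ (B ∩ pre n (t + 2 * r))).card ≤ (A ∩ B).card := by
    refine Finset.card_le_card ?_
    intro x hx
    simp only [Finset.mem_inter] at hx ⊢
    tauto
  omega

/-- if `A` has `t + ρ` elements, all in a symmetric prefix, sizes restrict the prefix -/
theorem sy_le (ht : 1 ≤ t) {m ρ : ℕ} (hmn : m ≤ n) (hF : TI t F) (hL : LS F) (hS : Sy m F)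
    {A : Finset (Fin n)} (hA : A ∈ F) (hAc : A.card = t + ρ) : m ≤ t + 2 * ρ := by
  by_contra hcon
  rw [not_le] at hcon
  have hp := pre_mem hL hA hAc
  have h1 : (pre n (t + ρ)).card = t + ρ := card_pre (by omega)
  have h2 : (pre n m \ pre n (t + ρ)).card = m - (t + ρ) := by
    rw [Finset.card_sdiff_of_subset (pre_subset (by omega)), h1, card_pre hmn]
  obtain ⟨Q, hQ, hQc⟩ := Finset.exists_subset_card_eq (s := pre n m \ pre n (t + ρ))
    (n := ρ + 1) (by omega)
  obtain ⟨C, hQC, hCm, hCc⟩ := Finset.exists_subsuperset_card_eq (n := t + ρ)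
    (hQ.trans Finset.sdiff_subset) (by omega) (by rw [card_pre hmn]; omega)
  have hC : C ∈ F := sym_mem hS hp (by rw [h1, hCc])
    (Finset.sdiff_subset.trans (pre_subset (by omega))) (Finset.sdiff_subset.trans hCm)
  have h3 := hF C hC _ hp
  have h4 : C ∩ pre n (t + ρ) ⊆ C \ Q := by
    intro x hx
    rw [Finset.mem_inter] at hx
    exact Finset.mem_sdiff.2 ⟨hx.1, fun hh => (Finset.mem_sdiff.1 (hQ hh)).2 hx.2⟩
  have h5 := Finset.card_le_card h4
  rw [Finset.card_sdiff_of_subset hQC] at h5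
  omega

/-- symmetric prefix of full length: the family is Frankl's -/
theorem eq_Fr (ht : 1 ≤ t) {ρ : ℕ} (hα : ∀ k, 0 < α k) (hmn : t + 2 * ρ ≤ n) (hF : Opt α t F)
    (hL : LS F) (hS : Sy (t + 2 * ρ) F) {A : Finset (Fin n)} (hA : A ∈ F)
    (hAc : A.card = t + ρ) : F = Fr n t ρ := by
  refine opt_not_ssubset hα hF (ti_Fr n t ρ hmn) ?_
  intro G hG
  rw [mem_Fr]
  by_contra hcon
  rw [not_le] at hcon
  have hp := pre_mem hL hA hAc
  have h1 : (pre n (t + ρ)).card = t + ρ := card_pre (by omega)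
  have h2 := Finset.card_sdiff_add_card_inter (pre n (t + 2 * ρ)) G
  rw [card_pre hmn, Finset.inter_comm] at h2
  obtain ⟨Q, hQ, hQc⟩ := Finset.exists_subset_card_eq (s := pre n (t + 2 * ρ) \ G)
    (n := ρ + 1) (by omega)
  obtain ⟨C, hQC, hCm, hCc⟩ := Finset.exists_subsuperset_card_eq (n := t + ρ)
    (hQ.trans Finset.sdiff_subset) (by omega) (by rw [card_pre hmn]; omega)
  have hC : C ∈ F := sym_mem hS hp (by rw [h1, hCc])
    (Finset.sdiff_subset.trans (pre_subset (by omega))) (Finset.sdiff_subset.trans hCm)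
  have h3 := hF.1 C hC _ hG
  have h4 : C ∩ G ⊆ C \ Q := by
    intro x hx
    rw [Finset.mem_inter] at hx
    exact Finset.mem_sdiff.2 ⟨hx.1, fun hh => (Finset.mem_sdiff.1 (hQ hh)).2 hx.2⟩
  have h5 := Finset.card_le_card h4
  rw [Finset.card_sdiff_of_subset hQC] at h5
  omega

theorem pre_inter_pre {a b : ℕ} (h : a ≤ b) : pre n a ∩ pre n b = pre n a :=
  Finset.inter_eq_left.2 (pre_subset h)

/-- the smallest size of the members of an optimal family -/
theorem bottom (hα : ∀ k, 0 < α k) (htn : t ≤ n) (hF : Opt α t F) :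
    ∃ ρ, t + 2 * ρ ≤ n ∧ (∃ A ∈ F, A.card = t + ρ) ∧ ∀ A ∈ F, t + ρ ≤ A.card := by
  have hne : F.Nonempty := by
    rw [Finset.nonempty_iff_ne_empty]
    intro h0
    have hu : Finset.univ ∈ F := by
      refine opt_add hα hF (by rw [Finset.card_univ, Fintype.card_fin]; exact htn) ?_
      intro B hB
      rw [h0] at hB
      exact absurd hB (Finset.notMem_empty B)
    rw [h0] at hu
    exact absurd hu (Finset.notMem_empty _)
  obtain ⟨A, hA, hmin⟩ := Finset.exists_min_image F (fun A => A.card) hne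
  have h1 := hF.1 A hA A hA
  rw [Finset.inter_self] at h1
  refine ⟨A.card - t, ?_, ⟨A, hA, by omega⟩, fun B hB => by have := hmin B hB; omega⟩
  by_contra hcon
  rw [not_le] at hcon
  have hsub : F ⊆ Fr n t ((n - t) / 2) := by
    intro B hB
    rw [mem_Fr]
    have h2 := hmin B hB
    have h3 := Finset.card_sdiff_add_card_inter B (pre n (t + 2 * ((n - t) / 2)))
    have h4 : (B \ pre n (t + 2 * ((n - t) / 2))).card ≤ n - (t + 2 * ((n - t) / 2)) := by
      refine le_trans (Finset.card_le_card (?_ : _ ⊆ (pre n (t + 2 * ((n - t) / 2)))ᶜ)) ?_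
      · intro x hx
        exact Finset.mem_compl.2 (Finset.mem_sdiff.1 hx).2
      · rw [Finset.card_compl, Fintype.card_fin, card_pre (by omega)]
    omega
  have heq := opt_not_ssubset hα hF (ti_Fr n t _ (by omega)) hsub
  have hp : pre n (t + (n - t) / 2) ∈ F := by
    rw [heq, mem_Fr, pre_inter_pre (by omega), card_pre (by omega)]
  have h5 := hmin _ hp
  rw [card_pre (by omega)] at h5
  omega

/-- the maximal symmetric prefix -/
theorem exists_prefix (F : Finset (Finset (Fin n))) :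
    Sy n F ∨ ∃ m, m < n ∧ Sy m F ∧ ¬ Sy (m + 1) F := by
  classical
  by_cases h : Sy n F
  · exact Or.inl h
  · right
    have hex : ∃ m, ¬ Sy m F := ⟨n, h⟩
    have h1 := Nat.find_spec hex
    have h2 := Nat.find_min' hex h
    have h3 : Nat.find hex ≠ 0 := by
      intro h0
      rw [h0] at h1
      refine h1 (fun A hA y hy x hx hx0 => absurd hx0 (Nat.not_lt_zero _))
    refine ⟨Nat.find hex - 1, by omega, ?_, ?_⟩
    · have h4 := Nat.find_min hex (m := Nat.find hex - 1) (by omega)
      rwa [not_not] at h4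
    · have h4 : Nat.find hex - 1 + 1 = Nat.find hex := by omega
      rw [h4]
      exact h1

end Opt

end Pool.Agent.ProfOP
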