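import Pool.Agent.Lib_MP_05ae4a_op.Basic

/-! # The exchange argument beyond the symmetric prefix -/

namespace Pool.Agent.ProfOP

open Pool.Agent.ProfEP

variable {n t : ℕ} {α : ℕ → ℝ} {F : Finset (Finset (Fin n))}

/-- the elements behind `p` -/
def rst {n : ℕ} (p : Fin n) : Finset (Fin n) := Finset.univ.filter (fun x => p < x)

theorem mem_rst {p x : Fin n} : x ∈ rst p ↔ p < x := by
  simp [rst]

/-- the critical traces of level `σ` -/
def Cr {n : ℕ} (F : Finset (Finset (Fin n))) (p : Fin n) (σ : ℕ) : Finset (Finset (Fin n)) :=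
  (rst p).powerset.filter (fun B =>
    (∀ A ∈ (pre n p).powersetCard σ, A ∪ B ∈ F) ∧
    (∀ A ∈ (pre n p).powersetCard (σ - 1), insert p (A ∪ B) ∉ F))

theorem mem_Cr {p : Fin n} {σ : ℕ} {B : Finset (Fin n)} : B ∈ Cr F p σ ↔ B ⊆ rst p ∧
    (∀ A : Finset (Fin n), A ⊆ pre n p → A.card = σ → A ∪ B ∈ F) ∧
    (∀ A : Finset (Fin n), A ⊆ pre n p → A.card = σ - 1 → insert p (A ∪ B) ∉ F) := by
  simp only [Cr, Finset.mem_filter, Finset.mem_powerset, Finset.mem_powersetCard]
  constructor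
  · rintro ⟨h1, h2, h3⟩
    exact ⟨h1, fun A h4 h5 => h2 A ⟨h4, h5⟩, fun A h4 h5 => h3 A ⟨h4, h5⟩⟩
  · rintro ⟨h1, h2, h3⟩
    exact ⟨h1, fun A h4 => h2 A h4.1 h4.2, fun A h4 => h3 A h4.1 h4.2⟩

theorem notMem_pre_self (p : Fin n) : p ∉ pre n p := by
  rw [mem_pre]
  exact lt_irrefl _

theorem notMem_rst_self (p : Fin n) : p ∉ rst p := by
  rw [mem_rst]
  exact lt_irrefl _

theorem disj_pre_rst (p : Fin n) : Disjoint (pre n p) (rst p) := by
  rw [Finset.disjoint_left]
  intro x hx hx'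
  rw [mem_pre] at hx
  rw [mem_rst] at hx'
  exact absurd hx (not_lt.2 (le_of_lt hx'))

theorem cr_of {p : Fin n} (hS : Sy p F) {Z : Finset (Fin n)} (hZ : Z ∈ F) (hpZ : p ∉ Z)
    {a : Fin n} (haZ : a ∈ Z) (ha : a ∈ pre n p) (hcon : insert p (Z.erase a) ∉ F) :
    Z \ pre n p ∈ Cr F p (Z ∩ pre n p).card := by
  have hZR : Z \ pre n p ⊆ rst p := by
    intro z hz
    rw [Finset.mem_sdiff, mem_pre] at hz
    rw [mem_rst]
    refine lt_of_le_of_ne (not_lt.1 hz.2) ?_
    intro hh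
    exact hpZ (hh ▸ hz.1)
  rw [mem_Cr]
  refine ⟨hZR, ?_, ?_⟩
  · intro C hC hCc
    refine sym_mem hS hZ ?_ ?_ ?_
    · rw [Finset.card_union_of_disjoint, hCc]
      · have := Finset.card_sdiff_add_card_inter Z (pre n p)
        omega
      · rw [Finset.disjoint_left]
        intro x hx hx'
        exact (Finset.mem_sdiff.1 hx').2 (hC hx)
    · intro x hx
      rw [Finset.mem_sdiff, Finset.mem_union, Finset.mem_sdiff, not_or] at hx
      by_contra hxp
      exact hx.2.2 ⟨hx.1, hxp⟩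
    · intro x hx
      rw [Finset.mem_sdiff, Finset.mem_union, Finset.mem_sdiff] at hx
      rcases hx with ⟨hx | hx, hx'⟩
      · exact hC hx
      · exact absurd hx.1 hx'
  · intro C hC hCc hmem
    have haZP : a ∈ Z ∩ pre n p := Finset.mem_inter.2 ⟨haZ, ha⟩
    have hpos : 0 < (Z ∩ pre n p).card := Finset.card_pos.2 ⟨a, haZP⟩
    refine hcon ?_
    have hpC : p ∉ C ∪ Z \ pre n p := by
      rw [Finset.mem_union, not_or]
      exact ⟨fun hh => notMem_pre_self p (hC hh), fun hh => hpZ (Finset.mem_sdiff.1 hh).1⟩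
    have hpZa : p ∉ Z.erase a := fun hh => hpZ (Finset.mem_of_mem_erase hh)
    refine sym_mem hS hmem ?_ ?_ ?_
    · rw [Finset.card_insert_of_notMem hpC, Finset.card_insert_of_notMem hpZa,
        Finset.card_erase_of_mem haZ, Finset.card_union_of_disjoint, hCc]
      · have := Finset.card_sdiff_add_card_inter Z (pre n p)
        omega
      · rw [Finset.disjoint_left]
        intro x hx hx'
        exact (Finset.mem_sdiff.1 hx').2 (hC hx)
    · intro x hx
      rw [Finset.mem_sdiff, Finset.mem_insert, Finset.mem_union, Finset.mem_sdiff,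
        Finset.mem_insert, Finset.mem_erase, not_or, not_and_or, not_not] at hx
      rcases hx with ⟨rfl | hx | hx, hx1, hx2⟩
      · exact absurd rfl hx1
      · exact hC hx
      · rcases hx2 with rfl | hx2
        · exact ha
        · exact absurd hx.1 hx2
    · intro x hx
      rw [Finset.mem_sdiff, Finset.mem_insert, Finset.mem_erase, Finset.mem_insert,
        Finset.mem_union, Finset.mem_sdiff, not_or, not_or] at hx
      rcases hx with ⟨rfl | hx, hx1, hx2, hx3⟩
      · exact absurd rfl hx1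
      · by_contra hxp
        exact hx3 ⟨hx.2, hxp⟩

/-- **CLAIM 1.** -/
theorem claim1 {p : Fin n} {σ : ℕ} (hT : TI t F) (hL : LS F) (hS : Sy p F)
    (hσ1 : 1 ≤ σ) (hσ : σ ≤ p) {B A Z : Finset (Fin n)} (hB : B ∈ Cr F p σ)
    (hA : A ⊆ pre n p) (hAc : A.card = σ - 1) (hZ : Z ∈ F)
    (hlt : (insert p (A ∪ B) ∩ Z).card < t) :
    p ∉ Z ∧ Z \ pre n p ∈ Cr F p (Z ∩ pre n p).card ∧ σ + (Z ∩ pre n p).card = p + t ∧
      Disjoint (Z \ pre n p) B := by
  rw [mem_Cr] at hB
  obtain ⟨hBR, hB1, hB2⟩ := hB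
  have hcp : (pre n (p : ℕ)).card = p := card_pre p.2.le
  obtain ⟨D, hD⟩ : ∃ D, D = A ∪ B := ⟨_, rfl⟩
  have hpD : p ∉ D := by
    rw [hD, Finset.mem_union, not_or]
    exact ⟨fun hh => notMem_pre_self p (hA hh), fun hh => notMem_rst_self p (hBR hh)⟩
  have hXa : ∀ a ∈ pre n p, a ∉ A → insert a D ∈ F ∧ a ∉ D := by
    intro a ha haA
    constructor
    · rw [hD, ← Finset.insert_union]
      refine hB1 _ ?_ ?_
      · intro x hx
        rcases Finset.mem_insert.1 hx with rfl | hx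
        · exact ha
        · exact hA hx
      · rw [Finset.card_insert_of_notMem haA]
        omega
    · rw [hD, Finset.mem_union, not_or]
      exact ⟨haA, fun hh => Finset.disjoint_left.1 (disj_pre_rst p) ha (hBR hh)⟩
  obtain ⟨a, ha⟩ : (pre n p \ A).Nonempty := by
    rw [← Finset.card_pos, Finset.card_sdiff_of_subset hA]
    omega
  rw [Finset.mem_sdiff] at ha
  rw [← hD] at hlt
  have hkey : ∀ a ∈ pre n p, a ∉ A → a ∈ Z ∧ p ∉ Z ∧ (D ∩ Z).card + 1 = t := by
    intro a ha haA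
    obtain ⟨h1, h2⟩ := hXa a ha haA
    have h3 := hT _ h1 _ hZ
    have haDZ : a ∉ D ∩ Z := fun hh => h2 (Finset.mem_inter.1 hh).1
    have hpDZ : p ∉ D ∩ Z := fun hh => hpD (Finset.mem_inter.1 hh).1
    by_cases hpZ : p ∈ Z
    · exfalso
      rw [Finset.insert_inter_of_mem hpZ, Finset.card_insert_of_notMem hpDZ] at hlt
      by_cases haZ : a ∈ Z
      · rw [Finset.insert_inter_of_mem haZ, Finset.card_insert_of_notMem haDZ] at h3
        omega
      · rw [Finset.insert_inter_of_notMem haZ] at h3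
        omega
    · rw [Finset.insert_inter_of_notMem hpZ] at hlt
      by_cases haZ : a ∈ Z
      · rw [Finset.insert_inter_of_mem haZ, Finset.card_insert_of_notMem haDZ] at h3
        exact ⟨haZ, hpZ, by omega⟩
      · rw [Finset.insert_inter_of_notMem haZ] at h3
        omega
  obtain ⟨haZ, hpZ, hDZ⟩ := hkey a ha.1 ha.2
  obtain ⟨hXF, haD⟩ := hXa a ha.1 ha.2
  have hXZ : (insert a D ∩ Z).card = t := by
    rw [Finset.insert_inter_of_mem haZ, Finset.card_insert_of_notMem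
      (fun hh => haD (Finset.mem_inter.1 hh).1)]
    exact hDZ
  have hpa : p ≠ a := fun hh => notMem_pre_self p (hh ▸ ha.1)
  have hpX : p ∉ insert a D := by
    rw [Finset.mem_insert, not_or]
    exact ⟨hpa, hpD⟩
  -- the general contradiction: no `z` in both sets can be replaced by `p` in `Z`
  have hcon : ∀ z ∈ Z, z ∈ insert a D → insert p (Z.erase z) ∉ F := by
    intro z hz hzX hmem
    have h1 := hT _ hXF _ hmem
    rw [Finset.inter_comm, Finset.insert_inter_of_notMem hpX] at h1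
    have h2 : Z.erase z ∩ insert a D = (insert a D ∩ Z).erase z := by
      ext x
      simp only [Finset.mem_inter, Finset.mem_erase]
      tauto
    rw [h2, Finset.card_erase_of_mem (Finset.mem_inter.2 ⟨hzX, hz⟩), hXZ] at h1
    omega
  have hZR : Z \ pre n p ⊆ rst p := by
    intro z hz
    rw [Finset.mem_sdiff, mem_pre] at hz
    rw [mem_rst]
    refine lt_of_le_of_ne (not_lt.1 hz.2) ?_
    intro hh
    exact hpZ (hh ▸ hz.1)
  have hdisj : Disjoint (Z \ pre n p) B := by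
    rw [Finset.disjoint_left]
    intro z hz hzB
    have hz' := (Finset.mem_sdiff.1 hz).1
    refine hcon z hz' ?_ (hL Z hZ z hz' p hpZ (mem_rst.1 (hZR hz)))
    rw [hD]
    exact Finset.mem_insert_of_mem (Finset.mem_union_right _ hzB)
  have hτ : σ + (Z ∩ pre n p).card = p + t := by
    have h1 : Z ∩ pre n p = (pre n p \ A) ∪ (D ∩ Z) := by
      ext z
      rw [Finset.mem_inter, Finset.mem_union, Finset.mem_sdiff, Finset.mem_inter, hD,
        Finset.mem_union]
      constructor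
      · rintro ⟨h2, h3⟩
        by_cases hzA : z ∈ A
        · exact Or.inr ⟨Or.inl hzA, h2⟩
        · exact Or.inl ⟨h3, hzA⟩
      · rintro (⟨h2, h3⟩ | ⟨h2 | h2, h3⟩)
        · exact ⟨(hkey z h2 h3).1, h2⟩
        · exact ⟨h3, hA h2⟩
        · exfalso
          refine Finset.disjoint_left.1 hdisj (Finset.mem_sdiff.2 ⟨h3, ?_⟩) h2
          intro h4
          exact Finset.disjoint_left.1 (disj_pre_rst p) h4 (hBR h2)
    have h2 : Disjoint (pre n (p : ℕ) \ A) (D ∩ Z) := by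
      rw [Finset.disjoint_left]
      intro z hz hz'
      rw [Finset.mem_sdiff] at hz
      rw [Finset.mem_inter, hD, Finset.mem_union] at hz'
      rcases hz'.1 with h3 | h3
      · exact hz.2 h3
      · exact Finset.disjoint_left.1 (disj_pre_rst p) hz.1 (hBR h3)
    rw [h1, Finset.card_union_of_disjoint h2, Finset.card_sdiff_of_subset hA]
    omega
  exact ⟨hpZ, cr_of hS hZ hpZ haZ ha.1 (hcon a haZ (Finset.mem_insert_self _ _)), hτ, hdisj⟩

/-- the added sets are compatible -/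
theorem claimX {p : Fin n} {σ : ℕ} (hT : TI t F) (hL : LS F) (hS : Sy p F)
    (hσ1 : 1 ≤ σ) (hσ : σ ≤ p) {B A B' A' : Finset (Fin n)} (hB : B ∈ Cr F p σ)
    (hA : A ⊆ pre n p) (hAc : A.card = σ - 1) (hB' : B' ∈ Cr F p σ)
    (hA' : A' ⊆ pre n p) (hAc' : A'.card = σ - 1)
    (hlt : (insert p (A ∪ B) ∩ insert p (A' ∪ B')).card < t) :
    σ + σ = p + t ∧ Disjoint B' B := by
  have hB'' := mem_Cr.1 hB'
  have hcp : (pre n (p : ℕ)).card = p := card_pre p.2.le
  obtain ⟨a, ha⟩ : (pre n p \ A').Nonempty := by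
    rw [← Finset.card_pos, Finset.card_sdiff_of_subset hA']
    omega
  rw [Finset.mem_sdiff] at ha
  have hsub : insert a A' ⊆ pre n p := by
    intro x hx
    rcases Finset.mem_insert.1 hx with rfl | hx
    · exact ha.1
    · exact hA' hx
  have hc1 : (insert a A').card = σ := by
    rw [Finset.card_insert_of_notMem ha.2]
    omega
  have hX : insert a A' ∪ B' ∈ F := hB''.2.1 _ hsub hc1
  have hdB : Disjoint (pre n p) B' := Finset.disjoint_of_subset_right hB''.1 (disj_pre_rst p)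
  have hpB' : p ∉ A' ∪ B' := by
    rw [Finset.mem_union, not_or]
    exact ⟨fun hh => notMem_pre_self p (hA' hh), fun hh => notMem_rst_self p (hB''.1 hh)⟩
  have hpB : p ∉ A ∪ B := by
    rw [Finset.mem_union, not_or]
    exact ⟨fun hh => notMem_pre_self p (hA hh),
      fun hh => notMem_rst_self p ((mem_Cr.1 hB).1 hh)⟩
  have hpa : p ≠ a := fun hh => notMem_pre_self p (hh ▸ ha.1)
  have hlt2 : (insert p (A ∪ B) ∩ (insert a A' ∪ B')).card < t := by
    refine lt_of_le_of_lt ?_ hlt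
    have h1 : insert p (A ∪ B) ∩ (insert a A' ∪ B') ⊆
        insert a ((insert p (A ∪ B) ∩ insert p (A' ∪ B')).erase p) := by
      intro x hx
      simp only [Finset.mem_inter, Finset.mem_insert, Finset.mem_union, Finset.mem_erase] at hx ⊢
      by_cases hxa : x = a
      · exact Or.inl hxa
      · right
        have hxp : x ≠ p := by
          rintro rfl
          rcases hx.2 with (h1 | h1) | h1
          · exact hpa h1
          · exact hpB' (Finset.mem_union_left _ h1)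
          · exact hpB' (Finset.mem_union_right _ h1)
        tauto
    have h2 := Finset.card_le_card h1
    have h3 := Finset.card_insert_le a ((insert p (A ∪ B) ∩ insert p (A' ∪ B')).erase p)
    have h4 : p ∈ insert p (A ∪ B) ∩ insert p (A' ∪ B') :=
      Finset.mem_inter.2 ⟨Finset.mem_insert_self _ _, Finset.mem_insert_self _ _⟩
    have h5 := Finset.card_erase_add_one h4
    omega
  obtain ⟨_, _, h3, h4⟩ := claim1 hT hL hS hσ1 hσ hB hA hAc hX hlt2
  have e1 : (insert a A' ∪ B') ∩ pre n p = insert a A' := by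
    ext x
    rw [Finset.mem_inter, Finset.mem_union]
    constructor
    · rintro ⟨h5 | h5, h6⟩
      · exact h5
      · exact absurd h5 (Finset.disjoint_left.1 hdB h6)
    · intro h5
      exact ⟨Or.inl h5, hsub h5⟩
  have e2 : (insert a A' ∪ B') \ pre n p = B' := by
    ext x
    rw [Finset.mem_sdiff, Finset.mem_union]
    constructor
    · rintro ⟨h5 | h5, h6⟩
      · exact absurd (hsub h5) h6
      · exact h5
    · intro h5
      exact ⟨Or.inr h5, fun h6 => Finset.disjoint_left.1 hdB h6 h5⟩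
  rw [e1, hc1] at h3
  rw [e2] at h4
  exact ⟨h3, h4⟩

/-- the sum over the product families -/
theorem sum_Z {p : Fin n} {τ : ℕ} {N : Finset (Finset (Fin n))} (hN : ∀ B ∈ N, B ⊆ rst p)
    (α : ℕ → ℝ) :
    wgt α (((pre n p).powersetCard τ ×ˢ N).image (fun q => q.1 ∪ q.2)) =
      ((p : ℕ).choose τ : ℝ) * ∑ B ∈ N, α (τ + B.card) := by
  have hd : ∀ A ⊆ pre n p, ∀ B ∈ N, Disjoint A B := fun A hA B hB =>
    Finset.disjoint_of_subset_left hA (Finset.disjoint_of_subset_right (hN B hB) (disj_pre_rst p))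
  have hcp : (pre n (p : ℕ)).card = p := card_pre p.2.le
  unfold wgt
  rw [Finset.sum_image]
  · rw [Finset.sum_product, Finset.sum_congr rfl
      (g := fun _ => ∑ B ∈ N, α (τ + B.card)) (fun A hA => ?_), Finset.sum_const,
      Finset.card_powersetCard, hcp, nsmul_eq_mul]
    rw [Finset.mem_powersetCard] at hA
    refine Finset.sum_congr rfl (fun B hB => ?_)
    rw [Finset.card_union_of_disjoint (hd A hA.1 B hB), hA.2]
  · rintro ⟨A, B⟩ hq ⟨A', B'⟩ hq' heq
    simp only [Finset.coe_product, Set.mem_prod, Finset.mem_coe, Finset.mem_powersetCard] at hq hq'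
    simp only at heq
    have e1 : ∀ A ⊆ pre n p, ∀ B ∈ N, (A ∪ B) ∩ pre n p = A := by
      intro A hA B hB
      ext x
      rw [Finset.mem_inter, Finset.mem_union]
      constructor
      · rintro ⟨h5 | h5, h6⟩
        · exact h5
        · exact absurd (hN B hB h5) (Finset.disjoint_left.1 (disj_pre_rst p) h6)
      · intro h5
        exact ⟨Or.inl h5, hA h5⟩
    have e2 : ∀ A ⊆ pre n p, ∀ B ∈ N, (A ∪ B) \ pre n p = B := by
      intro A hA B hB
      ext x
      rw [Finset.mem_sdiff, Finset.mem_union]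
      constructor
      · rintro ⟨h5 | h5, h6⟩
        · exact absurd (hA h5) h6
        · exact h5
      · intro h5
        exact ⟨Or.inr h5, fun h6 => Finset.disjoint_left.1 (disj_pre_rst p) h6 (hN B hB h5)⟩
    have h1 := e1 A hq.1.1 B hq.2
    have h2 := e2 A hq.1.1 B hq.2
    rw [heq, e1 A' hq'.1.1 B' hq'.2] at h1
    rw [heq, e2 A' hq'.1.1 B' hq'.2] at h2
    rw [h1, h2]

theorem sum_X {p : Fin n} {σ : ℕ} (hσ1 : 1 ≤ σ) {N : Finset (Finset (Fin n))}
    (hN : ∀ B ∈ N, B ⊆ rst p) (α : ℕ → ℝ) :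
    wgt α (((pre n p).powersetCard (σ - 1) ×ˢ N).image (fun q => insert p (q.1 ∪ q.2))) =
      ((p : ℕ).choose (σ - 1) : ℝ) * ∑ B ∈ N, α (σ + B.card) := by
  have hp : ∀ q ∈ (pre n p).powersetCard (σ - 1) ×ˢ N, p ∉ q.1 ∪ q.2 := by
    rintro ⟨A, B⟩ hq
    rw [Finset.mem_product, Finset.mem_powersetCard] at hq
    rw [Finset.mem_union, not_or]
    exact ⟨fun hh => notMem_pre_self p (hq.1.1 hh), fun hh => notMem_rst_self p (hN B hq.2 hh)⟩
  have h1 := sum_Z (τ := σ - 1) hN (fun k => α (k + 1))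
  have h2 : ∑ B ∈ N, (fun k => α (k + 1)) (σ - 1 + B.card) = ∑ B ∈ N, α (σ + B.card) := by
    refine Finset.sum_congr rfl (fun B _ => ?_)
    simp only
    congr 1
    omega
  rw [h2] at h1
  rw [← h1]
  unfold wgt
  have h3 : ((pre n p).powersetCard (σ - 1) ×ˢ N).image (fun q => insert p (q.1 ∪ q.2)) =
      (((pre n p).powersetCard (σ - 1) ×ˢ N).image (fun q => q.1 ∪ q.2)).image (fun X => insert p X) := by
    rw [Finset.image_image]
    rfl
  have hpX : ∀ X ∈ ((pre n p).powersetCard (σ - 1) ×ˢ N).image (fun q => q.1 ∪ q.2), p ∉ X := by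
    intro X hX
    obtain ⟨q, hq, rfl⟩ := Finset.mem_image.1 hX
    exact hp q hq
  rw [h3, Finset.sum_image]
  · refine Finset.sum_congr rfl (fun X hX => ?_)
    rw [Finset.card_insert_of_notMem (hpX X hX)]
  · intro X hX Y hY heq
    simp only at heq
    rw [← Finset.erase_insert (hpX X hX), ← Finset.erase_insert (hpX Y hY), heq]

/-- **EXCHANGE.** -/
theorem exchange {p : Fin n} {σ τ : ℕ} (hF : Opt α t F) (hL : LS F)
    (hS : Sy p F) (hσ1 : 1 ≤ σ) (hσ : σ ≤ p) (hst : σ + τ = p + t)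
    {N1 N2 : Finset (Finset (Fin n))} (hN1 : N1 ⊆ Cr F p σ) (hN2 : N2 ⊆ Cr F p τ)
    (h1 : ∀ B ∈ N1, ∀ C ∈ Cr F p τ, Disjoint C B → C ∈ N2)
    (h2 : σ = τ → ∀ B ∈ N1, ∀ B' ∈ N1, ¬ Disjoint B' B) :
    ((p : ℕ).choose (σ - 1) : ℝ) * ∑ B ∈ N1, α (σ + B.card) ≤
      ((p : ℕ).choose τ : ℝ) * ∑ B ∈ N2, α (τ + B.card) := by
  obtain ⟨X, hX⟩ : ∃ X, X = ((pre n p).powersetCard (σ - 1) ×ˢ N1).image
    (fun q => insert p (q.1 ∪ q.2)) := ⟨_, rfl⟩
  obtain ⟨Z, hZ⟩ : ∃ Z, Z = ((pre n p).powersetCard τ ×ˢ N2).image (fun q => q.1 ∪ q.2) :=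
    ⟨_, rfl⟩
  have hT := hF.1
  have hXm : ∀ Y ∈ X, ∃ A B, A ⊆ pre n p ∧ A.card = σ - 1 ∧ B ∈ N1 ∧ Y = insert p (A ∪ B) := by
    intro Y hY
    rw [hX] at hY
    obtain ⟨⟨A, B⟩, hq, rfl⟩ := Finset.mem_image.1 hY
    rw [Finset.mem_product, Finset.mem_powersetCard] at hq
    exact ⟨A, B, hq.1.1, hq.1.2, hq.2, rfl⟩
  have hXF : Disjoint X F := by
    rw [Finset.disjoint_left]
    intro Y hY
    obtain ⟨A, B, hA, hAc, hB, rfl⟩ := hXm Y hY
    exact (mem_Cr.1 (hN1 hB)).2.2 A hA hAc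
  have hZF : Z ⊆ F := by
    intro Y hY
    rw [hZ] at hY
    obtain ⟨⟨A, B⟩, hq, rfl⟩ := Finset.mem_image.1 hY
    rw [Finset.mem_product, Finset.mem_powersetCard] at hq
    exact (mem_Cr.1 (hN2 hq.2)).2.1 A hq.1.1 hq.1.2
  have hXZ : ∀ Y ∈ X, ∀ W ∈ F, W ∉ Z → t ≤ (Y ∩ W).card := by
    intro Y hY W hW hWZ
    obtain ⟨A, B, hA, hAc, hB, rfl⟩ := hXm Y hY
    by_contra hcon
    rw [not_le] at hcon
    obtain ⟨g1, g2, g3, g4⟩ := claim1 hT hL hS hσ1 hσ (hN1 hB) hA hAc hW hcon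
    have g5 : (W ∩ pre n p).card = τ := by omega
    rw [g5] at g2
    have g6 := h1 B hB _ g2 g4
    refine hWZ ?_
    rw [hZ, Finset.mem_image]
    refine ⟨(W ∩ pre n p, W \ pre n p), ?_, ?_⟩
    · rw [Finset.mem_product, Finset.mem_powersetCard]
      exact ⟨⟨Finset.inter_subset_right, g5⟩, g6⟩
    · simp only
      rw [Finset.union_comm, Finset.sdiff_union_inter]
  have hXX : ∀ Y ∈ X, ∀ W ∈ X, t ≤ (Y ∩ W).card := by
    intro Y hY W hW
    obtain ⟨A, B, hA, hAc, hB, rfl⟩ := hXm Y hY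
    obtain ⟨A', B', hA', hAc', hB', rfl⟩ := hXm W hW
    by_contra hcon
    rw [not_le] at hcon
    obtain ⟨g1, g2⟩ := claimX hT hL hS hσ1 hσ (hN1 hB) hA hAc (hN1 hB') hA' hAc' hcon
    exact h2 (by omega) B hB B' hB' g2
  have hG : TI t ((F \ Z) ∪ X) := by
    intro Y hY W hW
    rcases Finset.mem_union.1 hY with hY | hY <;> rcases Finset.mem_union.1 hW with hW | hW
    · exact hT Y (Finset.mem_sdiff.1 hY).1 W (Finset.mem_sdiff.1 hW).1
    · rw [Finset.inter_comm]
      exact hXZ W hW Y (Finset.mem_sdiff.1 hY).1 (Finset.mem_sdiff.1 hY).2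
    · exact hXZ Y hY W (Finset.mem_sdiff.1 hW).1 (Finset.mem_sdiff.1 hW).2
    · exact hXX Y hY W hW
  have hle := hF.2 _ hG
  have hw : wgt α ((F \ Z) ∪ X) = wgt α F - wgt α Z + wgt α X := by
    unfold wgt
    rw [Finset.sum_union (Finset.disjoint_of_subset_left Finset.sdiff_subset hXF.symm),
      ← Finset.sum_sdiff hZF]
    ring
  have hcr : ∀ {ρ : ℕ} {N : Finset (Finset (Fin n))}, N ⊆ Cr F p ρ → ∀ B ∈ N, B ⊆ rst p :=
    fun hN B hB => (mem_Cr.1 (hN hB)).1
  rw [← sum_Z (hcr hN2) α, ← sum_X hσ1 (hcr hN1) α, ← hX, ← hZ]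
  linarith

end Pool.Agent.ProfOP
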