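import Pool.Agent.Lib_MP_05ae4a_op.Weights

/-! # Weights for which Frankl's families are not optimal -/

namespace Pool.Agent.ProfOP

open Pool.Agent.ProfEP

variable {n t : ℕ} {α : ℕ → ℝ} {F : Finset (Finset (Fin n))}

/-- the truncated Frankl family -/
def Tr (n t ρ r : ℕ) : Finset (Finset (Fin n)) :=
  Finset.univ.filter (fun A => n ≤ A.card + ρ ∨ (t + ρ ≤ A.card ∧ A ∈ Fr n t r))

theorem mem_Tr {ρ r : ℕ} {A : Finset (Fin n)} :
    A ∈ Tr n t ρ r ↔ n ≤ A.card + ρ ∨ (t + ρ ≤ A.card ∧ A ∈ Fr n t r) := by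
  simp [Tr]

theorem ti_Tr {ρ r : ℕ} (hρ : t + 2 * ρ ≤ n) (hr : t + 2 * r ≤ n) : TI t (Tr n t ρ r) := by
  intro A hA B hB
  rw [mem_Tr] at hA hB
  have h1 := card_inter_ge A B
  rcases hA with hA | hA <;> rcases hB with hB | hB
  · omega
  · omega
  · omega
  · exact ti_Fr n t r hr A hA.2 B hB.2

theorem exists_weights_other (ht : 2 ≤ t) {ρ : ℕ} (hρ : t + 2 * ρ ≤ n)
    (hc : t + ρ < n - ρ) : ∃ α : ℕ → ℝ, (∀ k, 0 < α k) ∧
      ∀ F : Finset (Finset (Fin n)), Opt α t F → (∀ A ∈ F, t + ρ ≤ A.card) ∧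
        ∀ r, t + 2 * r ≤ n → lev (Fr n t r) (t + ρ) ≤ lev F (t + ρ) := by
  obtain ⟨ε, hε⟩ : ∃ ε : ℝ, ε = 1 / 2 ^ (n + 1) := ⟨_, rfl⟩
  have hε0 : 0 < ε := by
    rw [hε]
    positivity
  have hε2 : ε * 2 ^ n < 1 := by
    have h3 : ε * 2 ^ n = 1 / 2 := by
      rw [hε, pow_succ]
      field_simp
    linarith
  have hε1 : ε ≤ 1 := by
    have h1 : (1 : ℝ) ≤ 2 ^ n := one_le_pow₀ (by norm_num)
    have := mul_le_mul_of_nonneg_left h1 hε0.le
    linarith
  obtain ⟨M, hM⟩ : ∃ M : ℝ, M = 2 ^ n + 1 := ⟨_, rfl⟩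
  have hM0 : (2 : ℝ) ^ n < M := by linarith
  have hMp : 0 < M := lt_trans (by positivity) hM0
  obtain ⟨α, hα⟩ : ∃ α : ℕ → ℝ, α = fun k => if n ≤ k + ρ then M else
    if k = t + ρ then 1 else ε := ⟨_, rfl⟩
  have a1 : ∀ k, n ≤ k + ρ → α k = M := by
    intro k hk
    rw [hα]
    simp only
    rw [if_pos hk]
  have a2 : ∀ k, ¬ n ≤ k + ρ → k = t + ρ → α k = 1 := by
    intro k hk hk2
    rw [hα]
    simp only
    rw [if_neg hk, if_pos hk2]
  have a3 : ∀ k, ¬ n ≤ k + ρ → k ≠ t + ρ → α k = ε := by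
    intro k hk hk2
    rw [hα]
    simp only
    rw [if_neg hk, if_neg hk2]
  have hα0 : ∀ k, 0 < α k := by
    intro k
    by_cases h1 : n ≤ k + ρ
    · rw [a1 k h1]
      exact hMp
    · by_cases h2 : k = t + ρ
      · rw [a2 k h1 h2]
        exact one_pos
      · rw [a3 k h1 h2]
        exact hε0
  have hα1 : ∀ k, k + ρ < n → α k ≤ 1 := by
    intro k hk
    have h1 : ¬ n ≤ k + ρ := by omega
    by_cases h2 : k = t + ρ
    · rw [a2 k h1 h2]
    · rw [a3 k h1 h2]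
      exact hε1
  refine ⟨α, hα0, fun F hF => ?_⟩
  have hfull := full_of_opt hM0 hα0 a1 hα1 hρ hF
  have hsize := size_of_full (by omega) hρ hF.1 hfull
  refine ⟨hsize, fun r hr => ?_⟩
  obtain ⟨G, hG⟩ : ∃ G, G = Tr n t ρ r := ⟨_, rfl⟩
  have hle := hF.2 G (hG ▸ ti_Tr hρ hr)
  obtain ⟨L, hL⟩ : ∃ L : Finset (Finset (Fin n)), L = Finset.univ.filter (fun A => n ≤ A.card + ρ) :=
    ⟨_, rfl⟩
  have hLm : ∀ A : Finset (Fin n), A ∈ L ↔ n ≤ A.card + ρ := by
    intro A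
    rw [hL]
    simp
  have split : ∀ H : Finset (Finset (Fin n)), L ⊆ H → wgt α H = wgt α L +
      (lev H (t + ρ) : ℝ) + ε * ((H.filter (fun A => A ∉ L)).filter (fun A => A.card ≠ t + ρ)).card := by
    intro H hLH
    have e1 : wgt α H = wgt α (H.filter (fun A => A ∈ L)) + wgt α (H.filter (fun A => A ∉ L)) := by
      unfold wgt
      rw [Finset.sum_filter_add_sum_filter_not]
    have e2 : H.filter (fun A => A ∈ L) = L := by
      ext A
      rw [Finset.mem_filter]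
      exact ⟨fun h => h.2, fun h => ⟨hLH h, h⟩⟩
    have e3 : wgt α (H.filter (fun A => A ∉ L)) =
        wgt α ((H.filter (fun A => A ∉ L)).filter (fun A => A.card = t + ρ)) +
        wgt α ((H.filter (fun A => A ∉ L)).filter (fun A => A.card ≠ t + ρ)) := by
      unfold wgt
      rw [Finset.sum_filter_add_sum_filter_not]
    have e4 : (H.filter (fun A => A ∉ L)).filter (fun A => A.card = t + ρ) =
        H.filter (fun A => A.card = t + ρ) := by
      ext A
      simp only [Finset.mem_filter, hLm]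
      constructor
      · rintro ⟨⟨h1, h2⟩, h3⟩
        exact ⟨h1, h3⟩
      · rintro ⟨h1, h3⟩
        exact ⟨⟨h1, by omega⟩, h3⟩
    have e5 : wgt α (H.filter (fun A => A.card = t + ρ)) = (lev H (t + ρ) : ℝ) := by
      unfold wgt lev
      rw [Finset.sum_congr rfl (g := fun _ => (1 : ℝ)), Finset.sum_const, nsmul_eq_mul, mul_one]
      intro A hA
      rw [Finset.mem_filter] at hA
      exact a2 _ (by omega) hA.2
    have e6 : wgt α ((H.filter (fun A => A ∉ L)).filter (fun A => A.card ≠ t + ρ)) =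
        ε * ((H.filter (fun A => A ∉ L)).filter (fun A => A.card ≠ t + ρ)).card := by
      unfold wgt
      rw [Finset.sum_congr rfl (g := fun _ => ε), Finset.sum_const, nsmul_eq_mul, mul_comm]
      intro A hA
      rw [Finset.mem_filter, Finset.mem_filter, hLm] at hA
      exact a3 _ hA.1.2 hA.2
    rw [e1, e2, e3, e4, e5, e6]
    ring
  have hLF : L ⊆ F := fun A hA => hfull A ((hLm A).1 hA)
  have hLG : L ⊆ G := by
    intro A hA
    rw [hG, mem_Tr]
    exact Or.inl ((hLm A).1 hA)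
  rw [split F hLF, split G hLG] at hle
  have hlevG : lev (Fr n t r) (t + ρ) ≤ lev G (t + ρ) := by
    unfold lev
    refine Finset.card_le_card ?_
    intro A hA
    rw [Finset.mem_filter] at hA ⊢
    rw [hG, mem_Tr]
    exact ⟨Or.inr ⟨hA.2.ge, hA.1⟩, hA.2⟩
  have hb1 : (((F.filter (fun A => A ∉ L)).filter (fun A => A.card ≠ t + ρ)).card : ℝ) ≤ 2 ^ n := by
    have h3 := Finset.card_le_univ ((F.filter (fun A => A ∉ L)).filter (fun A => A.card ≠ t + ρ))
    rw [Fintype.card_finset, Fintype.card_fin] at h3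
    exact_mod_cast h3
  have hb2 : (0 : ℝ) ≤ (((G.filter (fun A => A ∉ L)).filter (fun A => A.card ≠ t + ρ)).card : ℝ) :=
    Nat.cast_nonneg _
  have k1 := mul_le_mul_of_nonneg_left hb1 hε0.le
  have k2 := mul_nonneg hε0.le hb2
  have k3 : (lev G (t + ρ) : ℝ) < (lev F (t + ρ) : ℝ) + 1 := by linarith
  have k4 : lev G (t + ρ) < lev F (t + ρ) + 1 := by exact_mod_cast k3
  omega

/-- the number of members of size `t + ρ` in the two relevant Frankl families -/
theorem num_other {n t ρ : ℕ} (ht : 1 ≤ t) (hρ1 : 1 ≤ ρ) (hρ : t + 2 * ρ ≤ n)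
    (hc : n < (ρ + 1) * (n - t + 1 - 2 * ρ)) :
    (t + 2 * ρ).choose (t + ρ) <
      (t + 2 * (ρ - 1)).choose (t + ρ - 1) * (n - (t + 2 * (ρ - 1))) +
        (t + 2 * (ρ - 1)).choose (t + ρ) := by
  obtain ⟨q, hq⟩ : ∃ q, ρ = q + 1 := ⟨ρ - 1, by omega⟩
  obtain ⟨d, hd⟩ : ∃ d, n = t + 2 * ρ + d := ⟨n - t - 2 * ρ, by omega⟩
  obtain ⟨u, hu⟩ : ∃ u, t = u + 1 := ⟨t - 1, by omega⟩
  have h1 : n - t + 1 - 2 * ρ = d + 1 := by omega
  rw [h1] at hc
  have e1 : t + 2 * ρ = (u + 1 + 2 * q) + 1 + 1 := by omega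
  have e2 : t + ρ = (u + q) + 1 + 1 := by omega
  have e3 : t + 2 * (ρ - 1) = u + 1 + 2 * q := by omega
  have e4 : (u + q) + 1 + 1 - 1 = u + q + 1 := by omega
  have e5 : n - (u + 1 + 2 * q) = d + 2 := by omega
  rw [e3, e5, e1, e2, e4, Nat.choose_succ_succ, Nat.choose_succ_succ, Nat.choose_succ_succ]
  have h2 := Nat.choose_succ_right_eq (u + 1 + 2 * q) (u + q)
  have h3 : u + 1 + 2 * q - (u + q) = q + 1 := by omega
  rw [h3] at h2
  -- choose (u+q+1) * (u+q+1) = choose (u+q) * (q+1)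
  have hpos : 0 < (u + 1 + 2 * q).choose (u + q + 1) := Nat.choose_pos (by omega)
  have h4 : u + q + 1 < d * (q + 1) := by
    have h5 : (ρ + 1) * (d + 1) = ρ * d + ρ + d + 1 := by ring
    have h6 : t + ρ < ρ * d + 1 := by omega
    have h7 : ρ * d = d * (q + 1) := by
      rw [hq]
      ring
    omega
  have h5 : (u + 1 + 2 * q).choose (u + q) < (u + 1 + 2 * q).choose (u + q + 1) * d := by
    have h6 : (u + 1 + 2 * q).choose (u + q) * (q + 1) <
        (u + 1 + 2 * q).choose (u + q + 1) * d * (q + 1) := by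
      rw [← h2]
      calc (u + 1 + 2 * q).choose (u + q + 1) * (u + q + 1) <
            (u + 1 + 2 * q).choose (u + q + 1) * (d * (q + 1)) := Nat.mul_lt_mul_of_pos_left h4 hpos
        _ = _ := by ring
    exact lt_of_mul_lt_mul_right h6 (Nat.zero_le _)
  have h6 : (u + 1 + 2 * q).choose (u + q + 1) * (d + 2) =
      (u + 1 + 2 * q).choose (u + q + 1) * d + 2 * (u + 1 + 2 * q).choose (u + q + 1) := by ring
  simp only [Nat.succ_eq_add_one]
  rw [h6]
  omega

end Pool.Agent.ProfOP
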