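import Pool.Agent.Lib_MP_05ae4a_op.Key

/-! # The pair inequality -/

namespace Pool.Agent.ProfOP

open Pool.Agent.ProfEP

variable {n t : ℕ} {α : ℕ → ℝ} {F : Finset (Finset (Fin n))}

theorem sum_pos_cr (hα : ∀ k, 0 < α k) {p : Fin n} {σ : ℕ} (h : (Cr F p σ).Nonempty) :
    0 < ∑ B ∈ Cr F p σ, α (σ + B.card) :=
  Finset.sum_pos (fun _ _ => hα _) h

theorem choose_rel {p σ : ℕ} (hσ1 : 1 ≤ σ) (hσ : σ ≤ p) :
    (p.choose σ : ℝ) * σ = (p.choose (σ - 1) : ℝ) * ((p : ℝ) - σ + 1) := by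
  have h := Nat.choose_succ_right_eq p (σ - 1)
  rw [Nat.sub_add_cancel hσ1] at h
  have h1 : p - (σ - 1) = p - σ + 1 := by omega
  rw [h1] at h
  have h2 : ((p.choose σ * σ : ℕ) : ℝ) = ((p.choose (σ - 1) * (p - σ + 1) : ℕ) : ℝ) := by
    rw [h]
  push_cast [Nat.cast_sub hσ] at h2
  exact h2

/-- **CLAIM 2.** -/
theorem claim2 (hα : ∀ k, 0 < α k) (ht : 2 ≤ t) (hF : Opt α t F) (hL : LS F) {p : Fin n}
    (hS : Sy p F) {σ : ℕ} (hσ1 : 1 ≤ σ) (hσ : σ ≤ p) (hne : (Cr F p σ).Nonempty) :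
    σ + σ = p + t := by
  by_contra hcon
  obtain ⟨τ, hτ⟩ : ∃ τ, σ + τ = p + t := ⟨p + t - σ, by omega⟩
  have hst : σ ≠ τ := by omega
  have hTσ := sum_pos_cr hα hne
  have E1 := exchange hF hL hS hσ1 hσ hτ (Finset.Subset.refl (Cr F p σ))
    (Finset.Subset.refl (Cr F p τ)) (fun B _ C hC _ => hC) (fun h => absurd h hst)
  have ha : (0 : ℝ) < ((p : ℕ).choose (σ - 1) : ℝ) := by
    exact_mod_cast Nat.choose_pos (by omega)
  have hL1 := mul_pos ha hTσ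
  have hτp : τ ≤ p := by
    by_contra hh
    rw [Nat.choose_eq_zero_of_lt (not_le.1 hh), Nat.cast_zero, zero_mul] at E1
    linarith
  have hτ1 : 1 ≤ τ := by omega
  have hb' : (0 : ℝ) < ((p : ℕ).choose τ : ℝ) := by
    exact_mod_cast Nat.choose_pos hτp
  have E2 := exchange hF hL hS hτ1 hτp (by omega : τ + σ = p + t) (Finset.Subset.refl (Cr F p τ))
    (Finset.Subset.refl (Cr F p σ)) (fun B _ C hC _ => hC) (fun h => absurd h hst.symm)
  obtain ⟨T, hT⟩ : ∃ T, T = ∑ B ∈ Cr F p σ, α (σ + B.card) := ⟨_, rfl⟩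
  obtain ⟨U, hU⟩ : ∃ U, U = ∑ B ∈ Cr F p τ, α (τ + B.card) := ⟨_, rfl⟩
  obtain ⟨a, ha'⟩ : ∃ a : ℝ, a = ((p : ℕ).choose (σ - 1) : ℝ) := ⟨_, rfl⟩
  obtain ⟨a2, ha2⟩ : ∃ a : ℝ, a = ((p : ℕ).choose σ : ℝ) := ⟨_, rfl⟩
  obtain ⟨b, hb⟩ : ∃ a : ℝ, a = ((p : ℕ).choose (τ - 1) : ℝ) := ⟨_, rfl⟩
  obtain ⟨b2, hb2⟩ : ∃ a : ℝ, a = ((p : ℕ).choose τ : ℝ) := ⟨_, rfl⟩
  have hb0 : 0 < b := by
    rw [hb]
    exact_mod_cast Nat.choose_pos (by omega)
  have r1 := choose_rel hσ1 hσ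
  have r2 := choose_rel hτ1 hτp
  rw [← ha', ← ha2] at r1
  rw [← hb, ← hb2] at r2
  rw [← hT, ← hU, ← ha', ← hb2] at E1
  rw [← hT, ← hU, ← hb, ← ha2] at E2
  rw [← hT] at hTσ
  rw [← ha'] at ha
  rw [← hb2] at hb'
  have e1 : a * b * T ≤ a2 * b2 * T := by
    calc a * b * T = b * (a * T) := by ring
      _ ≤ b * (b2 * U) := mul_le_mul_of_nonneg_left E1 hb0.le
      _ = b2 * (b * U) := by ring
      _ ≤ b2 * (a2 * T) := mul_le_mul_of_nonneg_left E2 hb'.le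
      _ = _ := by ring
  have e2 : a * b ≤ a2 * b2 := le_of_mul_le_mul_right e1 hTσ
  have hσR : (1 : ℝ) ≤ σ := by exact_mod_cast hσ1
  have hτR : (1 : ℝ) ≤ τ := by exact_mod_cast hτ1
  have hpσ : (σ : ℝ) ≤ ((p : ℕ) : ℝ) := by exact_mod_cast hσ
  have hpτ : (τ : ℝ) ≤ ((p : ℕ) : ℝ) := by exact_mod_cast hτp
  have htR : (2 : ℝ) ≤ t := by exact_mod_cast ht
  have hsum : (σ : ℝ) + τ = ((p : ℕ) : ℝ) + t := by exact_mod_cast hτ
  have e3 : a * b * (σ * τ) ≤ a * b * ((((p : ℕ) : ℝ) - σ + 1) * (((p : ℕ) : ℝ) - τ + 1)) := by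
    calc a * b * (σ * τ) ≤ a2 * b2 * (σ * τ) :=
          mul_le_mul_of_nonneg_right e2 (mul_nonneg (by linarith) (by linarith))
      _ = (a2 * σ) * (b2 * τ) := by ring
      _ = _ := by
        rw [r1, r2]
        ring
  have e4 := le_of_mul_le_mul_left e3 (mul_pos ha hb0)
  have e5 : (((p : ℕ) : ℝ) - σ + 1) * (((p : ℕ) : ℝ) - τ + 1) < σ * τ := by
    have h1 : ((p : ℕ) : ℝ) - σ + 1 < τ := by linarith
    have h2 : ((p : ℕ) : ℝ) - τ + 1 < σ := by linarith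
    calc (((p : ℕ) : ℝ) - σ + 1) * (((p : ℕ) : ℝ) - τ + 1) < τ * σ :=
          mul_lt_mul'' h1 h2 (by linarith) (by linarith)
      _ = _ := mul_comm _ _
  linarith

theorem card_rst (p : Fin n) : (rst p).card + p + 1 = n := by
  have h1 : (rst p).map Fin.valEmbedding = Finset.Ico ((p : ℕ) + 1) n := by
    ext a
    simp only [Finset.mem_map, Fin.valEmbedding_apply, Finset.mem_Ico, mem_rst]
    constructor
    · rintro ⟨x, hx, rfl⟩
      exact ⟨hx, x.2⟩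
    · rintro ⟨h1, h2⟩
      exact ⟨⟨a, h2⟩, h1, rfl⟩
  have h2 := congrArg Finset.card h1
  rw [Finset.card_map, Nat.card_Ico] at h2
  have := p.2
  omega

/-- **CLAIM 3.** -/
theorem claim3 (hF : Opt α t F) (hL : LS F) {p : Fin n} (hS : Sy p F) {σ : ℕ} (hσ1 : 1 ≤ σ)
    (hσ : σ ≤ p) (hσt : σ + σ = p + t) :
    ∑ B ∈ Cr F p σ, α (σ + B.card) * ((σ : ℝ) * B.card -
      (((p : ℕ) : ℝ) - σ + 1) * (((rst p).card : ℝ) - B.card)) ≤ 0 := by
  have E : ∀ e ∈ rst p, ((p : ℕ).choose (σ - 1) : ℝ) *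
      ∑ B ∈ (Cr F p σ).filter (fun B => e ∈ B), α (σ + B.card) ≤
      ((p : ℕ).choose σ : ℝ) * ∑ B ∈ (Cr F p σ).filter (fun B => e ∉ B), α (σ + B.card) := by
    intro e _
    refine exchange hF hL hS hσ1 hσ hσt (Finset.filter_subset _ _) (Finset.filter_subset _ _) ?_ ?_
    · intro B hB C hC hd
      rw [Finset.mem_filter] at hB ⊢
      exact ⟨hC, fun hh => Finset.disjoint_left.1 hd hh hB.2⟩
    · intro _ B hB B' hB' hd
      rw [Finset.mem_filter] at hB hB'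
      exact Finset.disjoint_left.1 hd hB'.2 hB.2
  have hsum := Finset.sum_le_sum E
  rw [← Finset.mul_sum, ← Finset.mul_sum] at hsum
  have h1 : ∑ e ∈ rst p, ∑ B ∈ (Cr F p σ).filter (fun B => e ∈ B), α (σ + B.card) =
      ∑ B ∈ Cr F p σ, α (σ + B.card) * B.card := by
    simp_rw [Finset.sum_filter]
    rw [Finset.sum_comm]
    refine Finset.sum_congr rfl (fun B hB => ?_)
    rw [← Finset.sum_filter, Finset.sum_const, nsmul_eq_mul, mul_comm]
    congr 2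
    congr 1
    ext x
    rw [Finset.mem_filter]
    exact ⟨fun h => h.2, fun h => ⟨(mem_Cr.1 hB).1 h, h⟩⟩
  have h2 : ∑ e ∈ rst p, ∑ B ∈ (Cr F p σ).filter (fun B => e ∉ B), α (σ + B.card) =
      ∑ B ∈ Cr F p σ, α (σ + B.card) * (((rst p).card : ℝ) - B.card) := by
    simp_rw [Finset.sum_filter]
    rw [Finset.sum_comm]
    refine Finset.sum_congr rfl (fun B hB => ?_)
    rw [← Finset.sum_filter, Finset.sum_const, nsmul_eq_mul, mul_comm]
    congr 1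
    have h3 : (rst p).filter (fun e => e ∉ B) = rst p \ B := by
      ext x
      rw [Finset.mem_filter, Finset.mem_sdiff]
    rw [h3, Finset.card_sdiff_of_subset (mem_Cr.1 hB).1,
      Nat.cast_sub (Finset.card_le_card (mem_Cr.1 hB).1)]
  rw [h1, h2] at hsum
  have ha : (0 : ℝ) < ((p : ℕ).choose (σ - 1) : ℝ) := by
    exact_mod_cast Nat.choose_pos (by omega)
  have r1 := choose_rel hσ1 hσ
  have hσR : (1 : ℝ) ≤ σ := by exact_mod_cast hσ1
  have h3 : ((p : ℕ).choose (σ - 1) : ℝ) * (σ * ∑ B ∈ Cr F p σ, α (σ + B.card) * B.card) ≤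
      ((p : ℕ).choose (σ - 1) : ℝ) * ((((p : ℕ) : ℝ) - σ + 1) *
        ∑ B ∈ Cr F p σ, α (σ + B.card) * (((rst p).card : ℝ) - B.card)) := by
    calc ((p : ℕ).choose (σ - 1) : ℝ) * (σ * ∑ B ∈ Cr F p σ, α (σ + B.card) * B.card)
        = σ * (((p : ℕ).choose (σ - 1) : ℝ) * ∑ B ∈ Cr F p σ, α (σ + B.card) * B.card) := by ring
      _ ≤ σ * (((p : ℕ).choose σ : ℝ) *
          ∑ B ∈ Cr F p σ, α (σ + B.card) * (((rst p).card : ℝ) - B.card)) :=
          mul_le_mul_of_nonneg_left hsum (by linarith)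
      _ = (((p : ℕ).choose σ : ℝ) * σ) *
          ∑ B ∈ Cr F p σ, α (σ + B.card) * (((rst p).card : ℝ) - B.card) := by ring
      _ = _ := by
        rw [r1]
        ring
  have h4 := le_of_mul_le_mul_left h3 ha
  have h5 : ∑ B ∈ Cr F p σ, α (σ + B.card) * ((σ : ℝ) * B.card -
      (((p : ℕ) : ℝ) - σ + 1) * (((rst p).card : ℝ) - B.card)) =
      σ * ∑ B ∈ Cr F p σ, α (σ + B.card) * B.card - (((p : ℕ) : ℝ) - σ + 1) *
        ∑ B ∈ Cr F p σ, α (σ + B.card) * (((rst p).card : ℝ) - B.card) := by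
    rw [Finset.mul_sum, Finset.mul_sum, ← Finset.sum_sub_distrib]
    exact Finset.sum_congr rfl (fun B _ => by ring)
  rw [h5]
  linarith

/-- the critical traces are closed under complements -/
theorem cr_compl (hα : ∀ k, 0 < α k) (hF : Opt α t F) (hL : LS F) {p : Fin n}
    (hS : Sy p F) {σ : ℕ} (ht : 1 ≤ t) (hσ : σ ≤ p) (hσt : σ + σ = p + t) {B : Finset (Fin n)}
    (hB : B ∈ Cr F p σ) : rst p \ B ∈ Cr F p σ := by
  have hσ1 : 1 ≤ σ := by omega
  have hcp : (pre n (p : ℕ)).card = p := card_pre p.2.le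
  have hB' := mem_Cr.1 hB
  obtain ⟨A, hA, hAc⟩ := Finset.exists_subset_card_eq (s := pre n (p : ℕ)) (n := σ - 1) (by omega)
  have hX := hB'.2.2 A hA hAc
  have hpAB : p ∉ A ∪ B := by
    rw [Finset.mem_union, not_or]
    exact ⟨fun hh => notMem_pre_self p (hA hh), fun hh => notMem_rst_self p (hB'.1 hh)⟩
  have hdAB : Disjoint A B :=
    Finset.disjoint_of_subset_left hA (Finset.disjoint_of_subset_right hB'.1 (disj_pre_rst p))
  have hXc : t ≤ (insert p (A ∪ B)).card := by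
    rw [Finset.card_insert_of_notMem hpAB, Finset.card_union_of_disjoint hdAB]
    omega
  obtain ⟨Z, hZ, hZlt⟩ : ∃ Z ∈ F, (insert p (A ∪ B) ∩ Z).card < t := by
    by_contra hcon
    push Not at hcon
    exact hX (opt_add hα hF hXc hcon)
  obtain ⟨g1, g2, g3, g4⟩ := claim1 hF.1 hL hS hσ1 hσ hB hA hAc hZ hZlt
  have g5 : (Z ∩ pre n p).card = σ := by omega
  rw [g5] at g2
  rw [mem_Cr] at g2 ⊢
  refine ⟨Finset.sdiff_subset, ?_, ?_⟩
  · intro C hC hCc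
    refine opt_up hα hF (g2.2.1 C hC hCc) ?_
    refine Finset.union_subset_union_right ?_
    intro x hx
    exact Finset.mem_sdiff.2 ⟨g2.1 hx, fun hh => Finset.disjoint_left.1 g4 hx hh⟩
  · intro C hC hCc hmem
    obtain ⟨Q, hQ1, hQ2, hQc⟩ := Finset.exists_subsuperset_card_eq (n := σ)
      (Finset.sdiff_subset : pre n (p : ℕ) \ C ⊆ pre n p)
      (by rw [Finset.card_sdiff_of_subset hC]; omega) (by omega)
    have h1 := hF.1 _ hmem _ (hB'.2.1 Q hQ2 hQc)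
    have h2 : insert p (C ∪ rst p \ B) ∩ (Q ∪ B) ⊆ Q \ (pre n p \ C) := by
      intro x hx
      simp only [Finset.mem_inter, Finset.mem_insert, Finset.mem_union, Finset.mem_sdiff] at hx ⊢
      have hxQ : x ∈ Q → x ∈ pre n p := fun hh => hQ2 hh
      have hxC : x ∈ C → x ∈ pre n p := fun hh => hC hh
      have hxB : x ∈ B → x ∈ rst p := fun hh => hB'.1 hh
      have hd1 : x ∈ pre n p → x ∉ rst p := fun hh => Finset.disjoint_left.1 (disj_pre_rst p) hh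
      have hp1 : x = p → x ∉ pre n p := fun hh => hh ▸ notMem_pre_self p
      have hp2 : x = p → x ∉ rst p := fun hh => hh ▸ notMem_rst_self p
      tauto
    have h3 := Finset.card_le_card h2
    rw [Finset.card_sdiff_of_subset hQ1, Finset.card_sdiff_of_subset hC] at h3
    omega

/-- **KEY.** Beyond the maximal symmetric prefix of an optimal family. -/
theorem key (hα : ∀ k, 0 < α k) (ht : 2 ≤ t) (hF : Opt α t F) (hL : LS F) {m : ℕ} (hm : m < n)
    (hS : Sy m F) (hS' : ¬ Sy (m + 1) F) : ∃ r b b' : ℕ, m = t + 2 * r ∧ b + b' + m + 1 = n ∧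
      (∃ A ∈ F, A.card = t + r + b) ∧ (∃ A ∈ F, A.card = t + r + b') ∧
      α (t + r + b) * (((t : ℝ) + r) * b - ((r : ℝ) + 1) * b') +
        α (t + r + b') * (((t : ℝ) + r) * b' - ((r : ℝ) + 1) * b) ≤ 0 := by
  obtain ⟨p, hp⟩ : ∃ p : Fin n, (p : ℕ) = m := ⟨⟨m, hm⟩, rfl⟩
  subst hp
  have hcp : (pre n (p : ℕ)).card = p := card_pre p.2.le
  obtain ⟨σ, hσ1, hσ, hne⟩ : ∃ σ : ℕ, 1 ≤ σ ∧ σ ≤ (p : ℕ) ∧ (Cr F p σ).Nonempty := by
    unfold Sy at hS'
    push Not at hS'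
    obtain ⟨A, hA, y, hy, x, hx, hxp, hyp, hn⟩ := hS'
    have hxy : x ≠ y := fun hh => hx (hh ▸ hy)
    have hxp' : x = p := by
      by_contra hne
      have hne' : (x : ℕ) ≠ p := fun hh => hne (Fin.ext hh)
      by_cases hyp' : (y : ℕ) = p
      · refine hn (hL A hA y hy x hx ?_)
        have : (x : ℕ) < y := by omega
        exact this
      · exact hn (hS A hA y hy x hx (by omega) (by omega))
    subst hxp'
    have hyx : (y : ℕ) ≠ x := fun hh => hxy (Fin.ext hh.symm)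
    have hyP : y ∈ pre n (x : ℕ) := mem_pre.2 (by omega)
    refine ⟨(A ∩ pre n x).card, ?_, ?_, ⟨_, cr_of hS hA hx hy hyP hn⟩⟩
    · exact Finset.card_pos.2 ⟨y, Finset.mem_inter.2 ⟨hy, hyP⟩⟩
    · exact (Finset.card_le_card Finset.inter_subset_right).trans hcp.le
  have hσt := claim2 hα ht hF hL hS hσ1 hσ hne
  have hc3 := claim3 hF hL hS hσ1 hσ hσt
  have hcl : ∀ B ∈ Cr F p σ, rst p \ B ∈ Cr F p σ := fun B hB =>
    cr_compl hα hF hL hS (by omega) hσ hσt hB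
  have hR := card_rst p
  obtain ⟨f, hf⟩ : ∃ f : ℕ → ℝ, f = fun b => α (σ + b) * ((σ : ℝ) * b -
      (((p : ℕ) : ℝ) - σ + 1) * (((rst p).card : ℝ) - b)) := ⟨_, rfl⟩
  have hf1 : ∑ B ∈ Cr F p σ, f B.card ≤ 0 := by
    rw [hf]
    exact hc3
  have hf2 : ∑ B ∈ Cr F p σ, f B.card = ∑ B ∈ Cr F p σ, f ((rst p).card - B.card) := by
    refine Finset.sum_bij' (fun B _ => rst p \ B) (fun B _ => rst p \ B) hcl hcl ?_ ?_ ?_
    · intro B hB
      rw [Finset.sdiff_sdiff_eq_self (mem_Cr.1 hB).1]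
    · intro B hB
      rw [Finset.sdiff_sdiff_eq_self (mem_Cr.1 hB).1]
    · intro B hB
      have h1 := (mem_Cr.1 hB).1
      have h2 := Finset.card_le_card h1
      rw [Finset.card_sdiff_of_subset h1]
      congr 1
      omega
  obtain ⟨B, hB, hBle⟩ : ∃ B ∈ Cr F p σ, f B.card + f ((rst p).card - B.card) ≤ 0 := by
    by_contra hcon
    push Not at hcon
    have h1 := Finset.sum_pos hcon hne
    rw [Finset.sum_add_distrib] at h1
    linarith
  have hBR := (mem_Cr.1 hB).1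
  have hBc := Finset.card_le_card hBR
  have hmem : ∀ B ∈ Cr F p σ, ∃ A ∈ F, A.card = σ + B.card := by
    intro B hB
    obtain ⟨A, hA, hAc⟩ := Finset.exists_subset_card_eq (s := pre n (p : ℕ)) (n := σ) (by omega)
    refine ⟨A ∪ B, (mem_Cr.1 hB).2.1 A hA hAc, ?_⟩
    rw [Finset.card_union_of_disjoint (Finset.disjoint_of_subset_left hA
      (Finset.disjoint_of_subset_right (mem_Cr.1 hB).1 (disj_pre_rst p))), hAc]
  obtain ⟨r, hr⟩ : ∃ r, σ = t + r := ⟨σ - t, by omega⟩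
  refine ⟨r, B.card, (rst p).card - B.card, by omega, by omega, ?_, ?_, ?_⟩
  · rw [← hr]
    exact hmem B hB
  · rw [← hr, ← Finset.card_sdiff_of_subset hBR]
    exact hmem _ (hcl B hB)
  · rw [hf] at hBle
    simp only at hBle
    have e1 : (((rst p).card - B.card : ℕ) : ℝ) = ((rst p).card : ℝ) - B.card :=
      Nat.cast_sub hBc
    have e2 : ((p : ℕ) : ℝ) - σ + 1 = (r : ℝ) + 1 := by
      have : (p : ℕ) = t + 2 * r := by omega
      rw [this, hr]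
      push_cast
      ring
    have e3 : (σ : ℝ) = (t : ℝ) + r := by
      rw [hr]
      push_cast
      ring
    rw [e2, e1, sub_sub_cancel, e3] at hBle
    rw [e1, ← hr]
    exact hBle

end Pool.Agent.ProfOP
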