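import Pool.Agent.Lib_MP_05ae4a_op.Pair

/-! # Optimal families with a given smallest size -/

namespace Pool.Agent.ProfOP

open Pool.Agent.ProfEP

variable {n t : ℕ} {α : ℕ → ℝ} {F : Finset (Finset (Fin n))}

/-- either the family is Frankl's, or the prefix is short -/
theorem dichotomy (hα : ∀ k, 0 < α k) (ht : 2 ≤ t) (hF : Opt α t F) (hL : LS F)
    {ρ : ℕ} (hρ : t + 2 * ρ ≤ n) (h1 : ∃ A ∈ F, A.card = t + ρ) (h2 : ∀ A ∈ F, t + ρ ≤ A.card) :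
    F = Fr n t ρ ∨ ∃ r b b' : ℕ, r < ρ ∧ b + b' + (t + 2 * r) + 1 = n ∧ ρ ≤ r + b ∧ ρ ≤ r + b' ∧
      Sy (t + 2 * r) F ∧
      α (t + r + b) * (((t : ℝ) + r) * b - ((r : ℝ) + 1) * b') +
        α (t + r + b') * (((t : ℝ) + r) * b' - ((r : ℝ) + 1) * b) ≤ 0 := by
  obtain ⟨A, hA, hAc⟩ := h1
  have heq : Sy (t + 2 * ρ) F → F = Fr n t ρ := fun hS =>
    eq_Fr (by omega) hα hρ hF hL hS hA hAc
  rcases exists_prefix F with hS | ⟨m, hm, hS, hS'⟩
  · left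
    have := sy_le (by omega) le_rfl hF.1 hL hS hA hAc
    refine heq ?_
    have h3 : t + 2 * ρ = n := by omega
    rw [h3]
    exact hS
  · have h3 := sy_le (by omega) hm.le hF.1 hL hS hA hAc
    obtain ⟨r, b, b', h4, h5, ⟨A1, hA1, hc1⟩, ⟨A2, hA2, hc2⟩, h6⟩ := key hα ht hF hL hm hS hS'
    subst h4
    by_cases hr : r = ρ
    · left
      rw [hr] at hS
      exact heq hS
    · right
      have h7 := h2 A1 hA1
      have h8 := h2 A2 hA2
      exact ⟨r, b, b', by omega, by omega, by omega, by omega, hS, h6⟩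

/-- the numerical inequality behind the uniqueness -/
theorem numc {n t ρ r b b' : ℕ} (ht : 2 ≤ t) (hρ : t + 2 * ρ ≤ n) (hr : r < ρ)
    (hb : b + b' + (t + 2 * r) + 1 = n) (hbρ : ρ ≤ r + b)
    (hc : (ρ + 1) * (n - t + 1 - 2 * ρ) ≤ n) :
    0 ≤ ((t : ℝ) + r) * b - ((r : ℝ) + 1) * b' := by
  obtain ⟨k, hk⟩ : ∃ k, ρ = r + 1 + k := ⟨ρ - r - 1, by omega⟩
  obtain ⟨d, hd⟩ : ∃ d, n = t + 2 * ρ + d := ⟨n - t - 2 * ρ, by omega⟩
  obtain ⟨j, hj⟩ : ∃ j, r + b = ρ + j := ⟨r + b - ρ, by omega⟩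
  obtain ⟨u, hu⟩ : ∃ u, t = u + 2 := ⟨t - 2, by omega⟩
  have h1 : n - t + 1 - 2 * ρ = d + 1 := by omega
  rw [h1] at hc
  have hb1 : b = 1 + k + j := by omega
  have hb2 : b' + j = k + d := by omega
  have hc' : ((ρ : ℝ) + 1) * ((d : ℝ) + 1) ≤ n := by exact_mod_cast hc
  have hn : (n : ℝ) = (t : ℝ) + 2 * ρ + d := by
    rw [hd]
    push_cast
    ring
  have hρ' : (ρ : ℝ) = r + 1 + k := by
    rw [hk]
    push_cast
    ring
  have hb1' : (b : ℝ) = 1 + k + j := by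
    rw [hb1]
    push_cast
    ring
  have hb2' : (b' : ℝ) = k + d - j := by
    have : (b' : ℝ) + j = k + d := by exact_mod_cast hb2
    linarith
  have hu' : (t : ℝ) = u + 2 := by
    rw [hu]
    push_cast
    ring
  have hr0 : (0 : ℝ) ≤ r := Nat.cast_nonneg r
  have hk0 : (0 : ℝ) ≤ k := Nat.cast_nonneg k
  have hd0 : (0 : ℝ) ≤ d := Nat.cast_nonneg d
  have hj0 : (0 : ℝ) ≤ j := Nat.cast_nonneg j
  have hu0 : (0 : ℝ) ≤ u := Nat.cast_nonneg u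
  rw [hn, hρ', hu'] at hc'
  rw [hb1', hb2', hu']
  have h3 : ((r : ℝ) + 1 + k) * d ≤ (u : ℝ) + r + k + 2 := by linarith
  linarith [mul_nonneg hk0 hu0, mul_nonneg hk0 hd0, mul_nonneg hj0 hr0, mul_nonneg hj0 hu0]

/-- **UNIQUENESS.** -/
theorem uniq (hα : ∀ k, 0 < α k) (ht : 2 ≤ t) (hF : Opt α t F) (hL : LS F)
    {ρ : ℕ} (hρ : t + 2 * ρ ≤ n) (h1 : ∃ A ∈ F, A.card = t + ρ) (h2 : ∀ A ∈ F, t + ρ ≤ A.card)
    (hc : (ρ + 1) * (n - t + 1 - 2 * ρ) ≤ n) : F = Fr n t ρ := by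
  rcases dichotomy hα ht hF hL hρ h1 h2 with h | ⟨r, b, b', h3, h4, h5, h6, -, h7⟩
  · exact h
  · exfalso
    have e1 := numc ht hρ h3 h4 h5 hc
    have e2 := numc ht hρ h3 (by omega : b' + b + (t + 2 * r) + 1 = n) h6 hc
    have g1 := mul_nonneg (hα (t + r + b)).le e1
    have g2 := mul_nonneg (hα (t + r + b')).le e2
    have z1 : α (t + r + b) * (((t : ℝ) + r) * b - ((r : ℝ) + 1) * b') = 0 := by linarith
    have z2 : α (t + r + b') * (((t : ℝ) + r) * b' - ((r : ℝ) + 1) * b) = 0 := by linarith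
    have y1 := (mul_eq_zero.1 z1).resolve_left (hα _).ne'
    have y2 := (mul_eq_zero.1 z2).resolve_left (hα _).ne'
    have y3 : ((t : ℝ) - 1) * ((b : ℝ) + b') = 0 := by linarith
    have ht' : (2 : ℝ) ≤ t := by exact_mod_cast ht
    have y4 := (mul_eq_zero.1 y3).resolve_left (by linarith)
    have hb : (1 : ℝ) ≤ b := by
      have : 1 ≤ b := by omega
      exact_mod_cast this
    have hb' : (0 : ℝ) ≤ b' := Nat.cast_nonneg b'
    linarith

end Pool.Agent.ProfOP
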