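import Pool.Agent.Lib_MP_05ae4a_op.Uniq

/-! # Weights for which Frankl's families are the unique optimum -/

namespace Pool.Agent.ProfOP

open Pool.Agent.ProfEP

variable {n t : ℕ} {α : ℕ → ℝ} {F : Finset (Finset (Fin n))}

theorem card_inter_ge (A B : Finset (Fin n)) : A.card + B.card ≤ (A ∩ B).card + n := by
  have h1 := Finset.card_union_add_card_inter A B
  have h2 := card_le_n (A ∪ B)
  omega

/-- with a huge weight on the large sets, all of them are present -/
theorem full_of_opt {M : ℝ} {ρ : ℕ} (hM : (2 : ℝ) ^ n < M) (h0 : ∀ k, 0 < α k)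
    (h1 : ∀ k, n ≤ k + ρ → α k = M) (h2 : ∀ k, k + ρ < n → α k ≤ 1) (hρ : t + 2 * ρ ≤ n)
    (hF : Opt α t F) : ∀ A : Finset (Fin n), n ≤ A.card + ρ → A ∈ F := by
  intro A0 hA0
  by_contra hA0F
  obtain ⟨L, hL⟩ : ∃ L : Finset (Finset (Fin n)), L = Finset.univ.filter (fun A => n ≤ A.card + ρ) :=
    ⟨_, rfl⟩
  have hLm : ∀ A : Finset (Fin n), A ∈ L ↔ n ≤ A.card + ρ := by
    intro A
    rw [hL]
    simp
  have hLT : TI t L := by
    intro A hA B hB
    rw [hLm] at hA hB
    have := card_inter_ge A B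
    omega
  have hle := hF.2 L hLT
  have hM0 : 0 < M := lt_trans (by positivity) hM
  have e1 : wgt α L = L.card * M := by
    unfold wgt
    rw [Finset.sum_congr rfl (g := fun _ => M) (fun A hA => h1 _ ((hLm A).1 hA)),
      Finset.sum_const, nsmul_eq_mul]
  have e2 : wgt α F = wgt α (F.filter (fun A => A ∈ L)) + wgt α (F.filter (fun A => A ∉ L)) := by
    unfold wgt
    rw [Finset.sum_filter_add_sum_filter_not]
  have e3 : wgt α (F.filter (fun A => A ∈ L)) ≤ (L.card - 1) * M := by
    have g1 : F.filter (fun A => A ∈ L) ⊆ L.erase A0 := by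
      intro A hA
      rw [Finset.mem_filter] at hA
      exact Finset.mem_erase.2 ⟨fun hh => hA0F (hh ▸ hA.1), hA.2⟩
    unfold wgt
    calc ∑ A ∈ F.filter (fun A => A ∈ L), α A.card ≤ ∑ A ∈ L.erase A0, α A.card :=
          Finset.sum_le_sum_of_subset_of_nonneg g1 (fun A _ _ => (h0 _).le)
      _ = ((L.erase A0).card : ℝ) * M := by
          rw [Finset.sum_congr rfl (g := fun _ => M) (fun A hA =>
            h1 _ ((hLm A).1 (Finset.mem_of_mem_erase hA))), Finset.sum_const, nsmul_eq_mul]
      _ = _ := by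
          have h3 := Finset.card_erase_add_one ((hLm A0).2 hA0)
          rw [← h3]
          push_cast
          ring
  have e4 : wgt α (F.filter (fun A => A ∉ L)) ≤ 2 ^ n := by
    unfold wgt
    calc ∑ A ∈ F.filter (fun A => A ∉ L), α A.card ≤
          ∑ A ∈ F.filter (fun A => A ∉ L), (1 : ℝ) := by
          refine Finset.sum_le_sum (fun A hA => ?_)
          rw [Finset.mem_filter, hLm] at hA
          exact h2 _ (by omega)
      _ = ((F.filter (fun A => A ∉ L)).card : ℝ) := by
          rw [Finset.sum_const, nsmul_eq_mul, mul_one]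
      _ ≤ _ := by
          have h3 := Finset.card_le_univ (F.filter (fun A => A ∉ L))
          rw [Fintype.card_finset, Fintype.card_fin] at h3
          exact_mod_cast h3
  linarith

/-- then the sizes are at least `t + ρ` -/
theorem size_of_full (ht : 1 ≤ t) {ρ : ℕ} (hρ : t + 2 * ρ ≤ n) (hT : TI t F)
    (hfull : ∀ A : Finset (Fin n), n ≤ A.card + ρ → A ∈ F) : ∀ A ∈ F, t + ρ ≤ A.card := by
  intro A hA
  rcases Nat.lt_or_ge A.card ρ with h | h
  · exfalso
    obtain ⟨Q, hQ1, -, hQc⟩ := Finset.exists_subsuperset_card_eq (n := ρ)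
      (Finset.subset_univ A) h.le (by rw [Finset.card_univ, Fintype.card_fin]; omega)
    have h1 := hT A hA Qᶜ (hfull _ (by
      rw [Finset.card_compl, Fintype.card_fin]
      omega))
    have h2 : A ∩ Qᶜ = ∅ := by
      rw [Finset.eq_empty_iff_forall_notMem]
      intro x hx
      rw [Finset.mem_inter, Finset.mem_compl] at hx
      exact hx.2 (hQ1 hx.1)
    rw [h2, Finset.card_empty] at h1
    omega
  · obtain ⟨Q, hQ1, hQc⟩ := Finset.exists_subset_card_eq h
    have h1 := hT A hA Qᶜ (hfull _ (by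
      rw [Finset.card_compl, Fintype.card_fin]
      omega))
    have h2 : A ∩ Qᶜ = A \ Q := by
      ext x
      rw [Finset.mem_inter, Finset.mem_compl, Finset.mem_sdiff]
    rw [h2, Finset.card_sdiff_of_subset hQ1] at h1
    omega

theorem pairpos {T R u w μ : ℝ} (hR : 0 < R) (hT : R < T) (hu : 0 < u) (huw : u ≤ w)
    (hμ : R ≤ μ * T) : 0 < (T * u - R * w) + μ * (T * w - R * u) := by
  have hT0 : 0 < T := lt_trans hR hT
  have hw : 0 < w := lt_of_lt_of_le hu huw
  have h1 : 0 ≤ T * w - R * u := by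
    have := mul_le_mul hT.le huw hu.le hT0.le
    linarith
  have h2 : R * (T * w - R * u) ≤ μ * T * (T * w - R * u) := mul_le_mul_of_nonneg_right hμ h1
  have h3 : 0 < u * (T * T - R * R) := by
    refine mul_pos hu ?_
    have := mul_lt_mul'' hT hT hR.le hR.le
    linarith
  have h4 : 0 < T * ((T * u - R * w) + μ * (T * w - R * u)) := by linarith
  exact (pos_iff_pos_of_mul_pos h4).1 hT0

/-- the large sets are in Frankl's family -/
theorem large_mem_Fr {ρ : ℕ} (hρ : t + 2 * ρ ≤ n) {A : Finset (Fin n)} (h : n ≤ A.card + ρ) :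
    A ∈ Fr n t ρ := by
  rw [mem_Fr]
  have h1 := Finset.card_sdiff_add_card_inter A (pre n (t + 2 * ρ))
  have h2 : (A \ pre n (t + 2 * ρ)).card ≤ n - (t + 2 * ρ) := by
    refine le_trans (Finset.card_le_card (?_ : _ ⊆ (pre n (t + 2 * ρ))ᶜ)) ?_
    · intro x hx
      exact Finset.mem_compl.2 (Finset.mem_sdiff.1 hx).2
    · rw [Finset.card_compl, Fintype.card_fin, card_pre (by omega)]
  omega

/-- **WEIGHTS.** Every Frankl family is the only shifted optimum of some positive weights. -/
theorem exists_weights (ht : 2 ≤ t) {ρ : ℕ} (hρ : t + 2 * ρ ≤ n) :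
    ∃ α : ℕ → ℝ, (∀ k, 0 < α k) ∧
      ∀ F : Finset (Finset (Fin n)), Opt α t F → LS F → F = Fr n t ρ := by
  have htR : (2 : ℝ) ≤ t := by exact_mod_cast ht
  have hρR : (0 : ℝ) ≤ ρ := Nat.cast_nonneg ρ
  obtain ⟨μ, hμ⟩ : ∃ μ : ℝ, μ = (2 * ρ + 1) / (2 * t + 2 * ρ - 1) := ⟨_, rfl⟩
  have hden : (0 : ℝ) < 2 * t + 2 * ρ - 1 := by linarith
  have hμ0 : 0 < μ := by
    rw [hμ]
    exact div_pos (by linarith) hden
  have hμ1 : μ ≤ 1 := by
    rw [hμ, div_le_one hden]
    linarith
  have hμd : μ * (2 * t + 2 * ρ - 1) = 2 * ρ + 1 := by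
    rw [hμ]
    exact div_mul_cancel₀ _ hden.ne'
  obtain ⟨N, hN⟩ : ∃ N, N = t + 2 * ρ := ⟨_, rfl⟩
  obtain ⟨g, hg⟩ : ∃ g : ℝ, g = (N.choose (t + ρ) : ℝ) - μ * (N.choose (ρ + 1) : ℝ) := ⟨_, rfl⟩
  have hg0 : 0 < g := by
    have h1 : N.choose (t + ρ) = N.choose ρ := by
      rw [← Nat.choose_symm (by omega : ρ ≤ N)]
      congr 1
      omega
    have h2 := Nat.choose_succ_right_eq N ρ
    have h3 : N - ρ = t + ρ := by omega
    rw [h3] at h2
    have h4 : (N.choose (ρ + 1) : ℝ) * (ρ + 1) = (N.choose ρ : ℝ) * (t + ρ) := by exact_mod_cast h2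
    have h5 : (0 : ℝ) < (N.choose ρ : ℝ) := by exact_mod_cast Nat.choose_pos (by omega)
    have h6 : 0 < ((2 : ℝ) * t + 2 * ρ - 1) * ((ρ + 1) * g) := by
      have : ((2 : ℝ) * t + 2 * ρ - 1) * ((ρ + 1) * g) =
          (2 * t + 2 * ρ - 1) * (ρ + 1) * (N.choose ρ : ℝ) -
          (μ * (2 * t + 2 * ρ - 1)) * ((N.choose (ρ + 1) : ℝ) * (ρ + 1)) := by
        rw [hg, h1]
        ring
      rw [this, hμd, h4]
      have : (2 * (t : ℝ) + 2 * ρ - 1) * (ρ + 1) * (N.choose ρ : ℝ) -
          (2 * ρ + 1) * ((N.choose ρ : ℝ) * (t + ρ)) = (N.choose ρ : ℝ) * (t - 1) := by ring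
      rw [this]
      exact mul_pos h5 (by linarith)
    have h7 := (pos_iff_pos_of_mul_pos h6).1 hden
    exact (pos_iff_pos_of_mul_pos h7).1 (by linarith)
  obtain ⟨ε, hε⟩ : ∃ ε : ℝ, ε = min 1 (g / 2 ^ (n + 1)) := ⟨_, rfl⟩
  have hε0 : 0 < ε := by
    rw [hε]
    exact lt_min one_pos (by positivity)
  have hε1 : ε ≤ 1 := by
    rw [hε]
    exact min_le_left _ _
  have hεg : ε * 2 ^ n < g := by
    have h1 : ε ≤ g / 2 ^ (n + 1) := by
      rw [hε]
      exact min_le_right _ _
    have h2 : ε * 2 ^ n ≤ g / 2 ^ (n + 1) * 2 ^ n := mul_le_mul_of_nonneg_right h1 (by positivity)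
    have h3 : g / 2 ^ (n + 1) * 2 ^ n = g / 2 := by
      rw [pow_succ]
      field_simp
    linarith
  obtain ⟨M, hM⟩ : ∃ M : ℝ, M = 2 ^ n + 1 := ⟨_, rfl⟩
  have hM0 : (2 : ℝ) ^ n < M := by linarith
  have hMp : 0 < M := lt_trans (by positivity) hM0
  obtain ⟨α, hα⟩ : ∃ α : ℕ → ℝ, α = fun k => if n ≤ k + ρ then M else
    if k = t + ρ then 1 else if k + ρ + 1 = n then μ else ε := ⟨_, rfl⟩
  have a1 : ∀ k, n ≤ k + ρ → α k = M := by
    intro k hk
    rw [hα]
    simp only
    rw [if_pos hk]
  have a2 : ∀ k, ¬ n ≤ k + ρ → k = t + ρ → α k = 1 := by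
    intro k hk hk2
    rw [hα]
    simp only
    rw [if_neg hk, if_pos hk2]
  have a3 : ∀ k, ¬ n ≤ k + ρ → k ≠ t + ρ → k + ρ + 1 = n → α k = μ := by
    intro k hk hk2 hk3
    rw [hα]
    simp only
    rw [if_neg hk, if_neg hk2, if_pos hk3]
  have a4 : ∀ k, ¬ n ≤ k + ρ → k ≠ t + ρ → k + ρ + 1 ≠ n → α k = ε := by
    intro k hk hk2 hk3
    rw [hα]
    simp only
    rw [if_neg hk, if_neg hk2, if_neg hk3]
  have hα0 : ∀ k, 0 < α k := by
    intro k
    by_cases h1 : n ≤ k + ρ
    · rw [a1 k h1]
      exact hMp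
    · by_cases h2 : k = t + ρ
      · rw [a2 k h1 h2]
        exact one_pos
      · by_cases h3 : k + ρ + 1 = n
        · rw [a3 k h1 h2 h3]
          exact hμ0
        · rw [a4 k h1 h2 h3]
          exact hε0
  have hα1 : ∀ k, k + ρ < n → α k ≤ 1 := by
    intro k hk
    have h1 : ¬ n ≤ k + ρ := by omega
    by_cases h2 : k = t + ρ
    · rw [a2 k h1 h2]
    · by_cases h3 : k + ρ + 1 = n
      · rw [a3 k h1 h2 h3]
        exact hμ1
      · rw [a4 k h1 h2 h3]
        exact hε1
  refine ⟨α, hα0, fun F hF hL => ?_⟩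
  have hfull := full_of_opt hM0 hα0 a1 hα1 hρ hF
  have hsize := size_of_full (by omega) hρ hF.1 hfull
  obtain ⟨ρ', hρ', ⟨A1, hA1, hA1c⟩, hmin⟩ := bottom hα0 (by omega) hF
  have hρρ : ρ ≤ ρ' := by
    have := hsize A1 hA1
    omega
  rcases Nat.eq_or_lt_of_le hρρ with heq | hlt
  · -- the bottom level is `t + ρ`
    subst heq
    by_cases hcase : n ≤ t + 2 * ρ + 1
    · refine uniq hα0 ht hF hL hρ ⟨A1, hA1, hA1c⟩ hmin ?_
      obtain ⟨d, hd⟩ : ∃ d, n = t + 2 * ρ + d := ⟨n - t - 2 * ρ, by omega⟩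
      have h1 : n - t + 1 - 2 * ρ = d + 1 := by omega
      rw [h1]
      have h2 : d = 0 ∨ d = 1 := by omega
      rcases h2 with h2 | h2
      · rw [h2]
        omega
      · rw [h2]
        omega
    · rcases dichotomy hα0 ht hF hL hρ ⟨A1, hA1, hA1c⟩ hmin with h | ⟨r, b, b', h3, h4, h5, h6, -, h7⟩
      · exact h
      · exfalso
        have hr0 : (0 : ℝ) ≤ r := Nat.cast_nonneg r
        have hTR : ((r : ℝ) + 1) < (t : ℝ) + r := by linarith
        have hμT : (r : ℝ) + 1 ≤ μ * ((t : ℝ) + r) := by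
          have hrρ : (r : ℝ) + 1 ≤ ρ := by exact_mod_cast h3
          have h8 : ((r : ℝ) + 1) * (2 * t + 2 * ρ - 1) ≤
              (μ * ((t : ℝ) + r)) * (2 * t + 2 * ρ - 1) := by
            have : (μ * ((t : ℝ) + r)) * (2 * t + 2 * ρ - 1) = (2 * ρ + 1) * (t + r) := by
              rw [← hμd]
              ring
            rw [this]
            have h9 : (2 * (ρ : ℝ) + 1) * (t + r) - ((r : ℝ) + 1) * (2 * t + 2 * ρ - 1) =
                (2 * (ρ - r - 1) + 1) * (t - 1) := by ring
            have h10 : 0 ≤ (2 * ((ρ : ℝ) - r - 1) + 1) * (t - 1) :=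
              mul_nonneg (by linarith) (by linarith)
            linarith
          exact le_of_mul_le_mul_right h8 hden
        by_cases c1 : r + b = ρ
        · have w1 : α (t + r + b) = 1 := a2 _ (by omega) (by omega)
          have w2 : α (t + r + b') = μ := a3 _ (by omega) (by omega) (by omega)
          rw [w1, w2, one_mul] at h7
          have hb : (1 : ℝ) ≤ b := by
            have : 1 ≤ b := by omega
            exact_mod_cast this
          have hbb : (b : ℝ) ≤ b' := by
            have : b ≤ b' := by omega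
            exact_mod_cast this
          have := pairpos (by linarith) hTR (by linarith : (0 : ℝ) < b) hbb hμT
          linarith
        · by_cases c2 : r + b' = ρ
          · have w1 : α (t + r + b') = 1 := a2 _ (by omega) (by omega)
            have w2 : α (t + r + b) = μ := a3 _ (by omega) (by omega) (by omega)
            rw [w1, w2, one_mul] at h7
            have hb : (1 : ℝ) ≤ b' := by
              have : 1 ≤ b' := by omega
              exact_mod_cast this
            have hbb : (b' : ℝ) ≤ b := by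
              have : b' ≤ b := by omega
              exact_mod_cast this
            have := pairpos (by linarith) hTR (by linarith : (0 : ℝ) < b') hbb hμT
            linarith
          · have w1 : α (t + r + b) = ε := a4 _ (by omega) (by omega) (by omega)
            have w2 : α (t + r + b') = ε := a4 _ (by omega) (by omega) (by omega)
            rw [w1, w2] at h7
            have hb : (1 : ℝ) ≤ b := by
              have : 1 ≤ b := by omega
              exact_mod_cast this
            have hb' : (0 : ℝ) ≤ b' := Nat.cast_nonneg b'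
            have h8 : 0 < ε * (((t : ℝ) - 1) * ((b : ℝ) + b')) :=
              mul_pos hε0 (mul_pos (by linarith) (by linarith))
            linarith
  · -- the level `t + ρ` is empty: compare with Frankl's family
    exfalso
    have hFr := ti_Fr n t ρ hρ
    have hle := hF.2 _ hFr
    have hNn : (pre n N).card = N := card_pre (by omega)
    have e1 : wgt α (Fr n t ρ) = wgt α (Fr n t ρ \ F) + wgt α (Fr n t ρ ∩ F) := by
      unfold wgt
      rw [← Finset.sum_union (Finset.disjoint_left.2 fun x hx hx' =>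
        (Finset.mem_sdiff.1 hx).2 (Finset.mem_inter.1 hx').2), Finset.sdiff_union_inter]
    have e2 : wgt α F = wgt α (F \ Fr n t ρ) + wgt α (Fr n t ρ ∩ F) := by
      unfold wgt
      rw [Finset.inter_comm, ← Finset.sum_union (Finset.disjoint_left.2 fun x hx hx' =>
        (Finset.mem_sdiff.1 hx).2 (Finset.mem_inter.1 hx').2), Finset.sdiff_union_inter]
    have hempty : ∀ A ∈ F, A.card ≠ t + ρ := by
      intro A hA hAc
      have := hmin A hA
      omega
    have e3 : (N.choose (t + ρ) : ℝ) ≤ wgt α (Fr n t ρ \ F) := by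
      have g1 : (pre n N).powersetCard (t + ρ) ⊆ Fr n t ρ \ F := by
        intro A hA
        rw [Finset.mem_powersetCard] at hA
        rw [Finset.mem_sdiff, mem_Fr, ← hN, Finset.inter_eq_left.2 hA.1]
        exact ⟨hA.2.ge, fun hh => hempty A hh hA.2⟩
      have g2 : ∑ A ∈ (pre n N).powersetCard (t + ρ), α A.card = (N.choose (t + ρ) : ℝ) := by
        rw [Finset.sum_congr rfl (g := fun _ => (1 : ℝ)), Finset.sum_const,
          Finset.card_powersetCard, hNn, nsmul_eq_mul, mul_one]
        intro A hA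
        rw [Finset.mem_powersetCard] at hA
        rw [hA.2]
        exact a2 _ (by omega) rfl
      rw [← g2]
      exact Finset.sum_le_sum_of_subset_of_nonneg g1 (fun A _ _ => (hα0 _).le)
    have e4 : wgt α (F \ Fr n t ρ) ≤ μ * (N.choose (ρ + 1) : ℝ) + ε * 2 ^ n := by
      have g0 : ∀ A ∈ F \ Fr n t ρ, ¬ n ≤ A.card + ρ := by
        intro A hA hh
        exact (Finset.mem_sdiff.1 hA).2 (large_mem_Fr hρ hh)
      have g1 : wgt α (F \ Fr n t ρ) = ∑ A ∈ (F \ Fr n t ρ).filter (fun A => A.card + ρ + 1 = n), α A.card +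
          ∑ A ∈ (F \ Fr n t ρ).filter (fun A => ¬ A.card + ρ + 1 = n), α A.card := by
        unfold wgt
        rw [Finset.sum_filter_add_sum_filter_not]
      have g2 : ∑ A ∈ (F \ Fr n t ρ).filter (fun A => A.card + ρ + 1 = n), α A.card =
          (((F \ Fr n t ρ).filter (fun A => A.card + ρ + 1 = n)).card : ℝ) * μ := by
        rw [Finset.sum_congr rfl (g := fun _ => μ), Finset.sum_const, nsmul_eq_mul]
        intro A hA
        rw [Finset.mem_filter] at hA
        exact a3 _ (g0 A hA.1) (hempty A (Finset.mem_sdiff.1 hA.1).1) hA.2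
      have g3 : ∑ A ∈ (F \ Fr n t ρ).filter (fun A => ¬ A.card + ρ + 1 = n), α A.card =
          (((F \ Fr n t ρ).filter (fun A => ¬ A.card + ρ + 1 = n)).card : ℝ) * ε := by
        rw [Finset.sum_congr rfl (g := fun _ => ε), Finset.sum_const, nsmul_eq_mul]
        intro A hA
        rw [Finset.mem_filter] at hA
        exact a4 _ (g0 A hA.1) (hempty A (Finset.mem_sdiff.1 hA.1).1) hA.2
      have g4 : ((F \ Fr n t ρ).filter (fun A => A.card + ρ + 1 = n)).card ≤ N.choose (ρ + 1) := by
        have k1 : (F \ Fr n t ρ).filter (fun A => A.card + ρ + 1 = n) ⊆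
            ((pre n N).powersetCard (ρ + 1)).image compl := by
          intro A hA
          rw [Finset.mem_filter, Finset.mem_sdiff, mem_Fr, ← hN, not_le] at hA
          obtain ⟨⟨_, k2⟩, k3⟩ := hA
          have k4 := Finset.card_sdiff_add_card_inter (pre n N) A
          rw [Finset.inter_comm, hNn] at k4
          have k5 : Aᶜ.card = ρ + 1 := by
            rw [Finset.card_compl, Fintype.card_fin]
            omega
          have k6 : pre n N \ A ⊆ Aᶜ := by
            intro x hx
            exact Finset.mem_compl.2 (Finset.mem_sdiff.1 hx).2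
          have k7 := Finset.eq_of_subset_of_card_le k6 (by omega)
          refine Finset.mem_image.2 ⟨Aᶜ, ?_, compl_compl A⟩
          rw [Finset.mem_powersetCard]
          refine ⟨?_, k5⟩
          rw [← k7]
          exact Finset.sdiff_subset
        have k8 := (Finset.card_le_card k1).trans Finset.card_image_le
        rwa [Finset.card_powersetCard, hNn] at k8
      have g5 : ((F \ Fr n t ρ).filter (fun A => ¬ A.card + ρ + 1 = n)).card ≤ 2 ^ n := by
        have h3 := Finset.card_le_univ ((F \ Fr n t ρ).filter (fun A => ¬ A.card + ρ + 1 = n))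
        rwa [Fintype.card_finset, Fintype.card_fin] at h3
      have g4' : (((F \ Fr n t ρ).filter (fun A => A.card + ρ + 1 = n)).card : ℝ) ≤
          (N.choose (ρ + 1) : ℝ) := by exact_mod_cast g4
      have g5' : (((F \ Fr n t ρ).filter (fun A => ¬ A.card + ρ + 1 = n)).card : ℝ) ≤
          (2 : ℝ) ^ n := by exact_mod_cast g5
      rw [g1, g2, g3]
      have k1 := mul_le_mul_of_nonneg_right g4' hμ0.le
      have k2 := mul_le_mul_of_nonneg_right g5' hε0.le
      linarith
    linarith

end Pool.Agent.ProfOP
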